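import Mathlib

set_option autoImplicit false

open Filter Topology ZeroAtInfty

namespace Pool.Agent.H795R2.BA

section C0

variable {Y V : Type} [NormedAddCommGroup Y] [NormedSpace ℂ Y] [NormedAddCommGroup V]
  [NormedSpace ℂ V]

lemma c0_norm_apply_le (f : C₀(ℕ, V)) (k : ℕ) : ‖f k‖ ≤ ‖f‖ := by
  rw [← ZeroAtInftyContinuousMap.norm_toBCF_eq_norm]
  exact f.toBCF.norm_coe_le_norm k

lemma c0_norm_le (f : C₀(ℕ, V)) {B : ℝ} (hB : 0 ≤ B) (h : ∀ k, ‖f k‖ ≤ B) : ‖f‖ ≤ B := by
  rw [← ZeroAtInftyContinuousMap.norm_toBCF_eq_norm]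
  exact (BoundedContinuousFunction.norm_le hB).2 h

lemma c0_tendsto (f : C₀(ℕ, V)) : Tendsto (fun k => f k) atTop (𝓝 0) := by
  have h := f.zero_at_infty'
  rw [cocompact_eq_cofinite, Nat.cofinite_eq_atTop] at h
  exact h

/-- a null sequence as an element of c0 -/
def mkSeq (f : ℕ → V) (hf : Tendsto f atTop (𝓝 0)) : C₀(ℕ, V) where
  toFun := f
  continuous_toFun := continuous_of_discreteTopology
  zero_at_infty' := by
    rw [cocompact_eq_cofinite, Nat.cofinite_eq_atTop]
    exact hf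

@[simp] lemma mkSeq_apply (f : ℕ → V) (hf : Tendsto f atTop (𝓝 0)) (k : ℕ) :
    mkSeq f hf k = f k := rfl

/-- an operator into c0 from a sequence of operators -/
noncomputable def mk0 (f : ℕ → (Y →L[ℂ] V)) (C : ℝ) (hC : ∀ k, ‖f k‖ ≤ C)
    (h0 : ∀ y, Tendsto (fun k => f k y) atTop (𝓝 0)) : Y →L[ℂ] C₀(ℕ, V) :=
  LinearMap.mkContinuous
    { toFun := fun y => mkSeq (fun k => f k y) (h0 y)
      map_add' := by
        intro x y
        ext k
        simp
      map_smul' := by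
        intro c x
        ext k
        simp }
    C (by
      intro y
      have hC0 : 0 ≤ C := (norm_nonneg _).trans (hC 0)
      refine c0_norm_le _ (by positivity) fun k => ?_
      exact (f k).le_of_opNorm_le (hC k) y)

@[simp] lemma mk0_apply (f : ℕ → (Y →L[ℂ] V)) (C : ℝ) (hC : ∀ k, ‖f k‖ ≤ C)
    (h0 : ∀ y, Tendsto (fun k => f k y) atTop (𝓝 0)) (y : Y) (k : ℕ) :
    mk0 f C hC h0 y k = f k y := rfl

/-- evaluation -/
noncomputable def ev0 (k : ℕ) : C₀(ℕ, V) →L[ℂ] V :=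
  LinearMap.mkContinuous
    { toFun := fun f => f k
      map_add' := fun f g => rfl
      map_smul' := fun c f => rfl } 1 (by
      intro f
      rw [one_mul]
      exact c0_norm_apply_le f k)

@[simp] lemma ev0_apply (k : ℕ) (f : C₀(ℕ, V)) : ev0 k f = f k := rfl

lemma ev0_norm (k : ℕ) : ‖(ev0 k : C₀(ℕ, V) →L[ℂ] V)‖ ≤ 1 :=
  LinearMap.mkContinuous_norm_le _ zero_le_one _

/-- the element v at place k -/
noncomputable def dl (k : ℕ) (v : V) : C₀(ℕ, V) :=
  mkSeq (fun l => if l = k then v else 0) (by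
    apply tendsto_const_nhds.congr'
    filter_upwards [eventually_gt_atTop k] with l hl
    rw [if_neg (by omega)])

@[simp] lemma dl_apply (k l : ℕ) (v : V) : dl k v l = if l = k then v else 0 := rfl

/-- truncations converge -/
lemma trunc_tendsto (f : C₀(ℕ, ℂ)) :
    Tendsto (fun N => ∑ k ∈ Finset.range N, f k • dl k (1 : ℂ)) atTop (𝓝 f) := by
  rw [Metric.tendsto_atTop]
  intro ε hε
  obtain ⟨K, hK⟩ := (Metric.tendsto_atTop.1 (c0_tendsto f)) (ε / 2) (by positivity)
  refine ⟨K, fun N hN => ?_⟩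
  rw [dist_eq_norm]
  refine lt_of_le_of_lt (c0_norm_le _ (B := ε / 2) (by positivity) fun l => ?_) (by linarith)
  have h1 : (∑ k ∈ Finset.range N, f k • dl k (1 : ℂ) - f) l =
      (∑ k ∈ Finset.range N, (f k • dl k (1 : ℂ)) l) - f l := by
    have := map_sum (ev0 (V := ℂ) l) (fun k => f k • dl k (1 : ℂ)) (Finset.range N)
    simp only [ev0_apply] at this
    rw [ZeroAtInftyContinuousMap.sub_apply, this]
  rw [h1]
  simp only [ZeroAtInftyContinuousMap.smul_apply, dl_apply, smul_eq_mul, mul_ite, mul_one,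
    mul_zero]
  rw [Finset.sum_ite_eq]
  by_cases hl : l ∈ Finset.range N
  · rw [if_pos hl, sub_self, norm_zero]
    positivity
  · rw [if_neg hl, zero_sub, norm_neg]
    have h2 := hK l (by
      rw [Finset.mem_range] at hl
      omega)
    rw [dist_zero_right] at h2
    exact h2.le

end C0

section Sum

variable {X : Type} [NormedAddCommGroup X] [NormedSpace ℂ X]

/-- scaling of the unconditional bound -/
lemma scale_bound {C : ℝ} {g : ℕ → X} {s : Finset ℕ}
    (hg : ∀ c : ℕ → ℂ, (∀ k ∈ s, ‖c k‖ ≤ 1) → ‖∑ k ∈ s, c k • g k‖ ≤ C)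
    (c : ℕ → ℂ) (δ : ℝ) (hδ : 0 ≤ δ) (hc : ∀ k ∈ s, ‖c k‖ ≤ δ) :
    ‖∑ k ∈ s, c k • g k‖ ≤ C * δ := by
  rcases hδ.eq_or_lt with h0 | h0
  · have : ∀ k ∈ s, c k • g k = 0 := by
      intro k hk
      have := hc k hk
      rw [← h0] at this
      rw [norm_le_zero_iff.1 this, zero_smul]
    rw [Finset.sum_eq_zero this, norm_zero, ← h0, mul_zero]
  · have h1 := hg (fun k => ((δ⁻¹ : ℝ) : ℂ) * c k) (by
      intro k hk
      rw [norm_mul, Complex.norm_real, Real.norm_of_nonneg (by positivity), inv_mul_eq_div,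
        div_le_one h0]
      exact hc k hk)
    have h2 : ∑ k ∈ s, (((δ⁻¹ : ℝ) : ℂ) * c k) • g k = ((δ⁻¹ : ℝ) : ℂ) • ∑ k ∈ s, c k • g k := by
      rw [Finset.smul_sum]
      exact Finset.sum_congr rfl fun k _ => by rw [mul_smul]
    rw [h2, norm_smul, Complex.norm_real, Real.norm_of_nonneg (by positivity), inv_mul_eq_div,
      div_le_iff₀ h0] at h1
    exact h1

variable [CompleteSpace X]

lemma c0_summable {C : ℝ} {g : ℕ → X}
    (hg : ∀ (c : ℕ → ℂ) (s : Finset ℕ), (∀ k ∈ s, ‖c k‖ ≤ 1) → ‖∑ k ∈ s, c k • g k‖ ≤ C)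
    (f : C₀(ℕ, ℂ)) : Summable fun k => f k • g k := by
  have hC0 : 0 ≤ C := by
    have := hg (fun _ => 0) ∅ (by simp)
    simpa using this
  rw [summable_iff_vanishing_norm]
  intro ε hε
  obtain ⟨K, hK⟩ := (Metric.tendsto_atTop.1 (c0_tendsto f)) (ε / (2 * (C + 1))) (by positivity)
  refine ⟨Finset.range K, fun t ht => ?_⟩
  have h1 := scale_bound (C := C) (g := g) (s := t) (fun c hc => hg c t hc) (fun k => f k)
    (ε / (2 * (C + 1))) (by positivity) (by
      intro k hk
      have h2 : k ∉ Finset.range K := fun h => Finset.disjoint_left.1 ht hk h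
      rw [Finset.mem_range, not_lt] at h2
      have := hK k h2
      rw [dist_zero_right] at this
      exact this.le)
  refine lt_of_le_of_lt h1 ?_
  rw [mul_div_assoc', div_lt_iff₀ (by positivity)]
  nlinarith

/-- the operator c0 → X -/
noncomputable def gam0 (g : ℕ → X) (C : ℝ)
    (hg : ∀ (c : ℕ → ℂ) (s : Finset ℕ), (∀ k ∈ s, ‖c k‖ ≤ 1) → ‖∑ k ∈ s, c k • g k‖ ≤ C) :
    C₀(ℕ, ℂ) →L[ℂ] X :=
  LinearMap.mkContinuous
    { toFun := fun f => ∑' k, f k • g k
      map_add' := by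
        intro f f'
        rw [← (c0_summable hg f).tsum_add (c0_summable hg f')]
        congr 1
        ext k
        simp [add_smul]
      map_smul' := by
        intro c f
        rw [RingHom.id_apply, ← (c0_summable hg f).tsum_const_smul c]
        congr 1
        ext k
        simp [mul_smul] } C (by
      intro f
      have h1 := (c0_summable hg f).hasSum
      apply le_of_tendsto h1.norm
      refine Filter.Eventually.of_forall fun s => ?_
      exact scale_bound (fun c hc => hg c s hc) (fun k => f k) ‖f‖ (norm_nonneg _)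
        (fun k _ => c0_norm_apply_le f k))

lemma gam0_hasSum (g : ℕ → X) (C : ℝ)
    (hg : ∀ (c : ℕ → ℂ) (s : Finset ℕ), (∀ k ∈ s, ‖c k‖ ≤ 1) → ‖∑ k ∈ s, c k • g k‖ ≤ C)
    (f : C₀(ℕ, ℂ)) : HasSum (fun k => f k • g k) (gam0 g C hg f) :=
  (c0_summable hg f).hasSum

end Sum

end Pool.Agent.H795R2.BA
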