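import Mathlib
import Pool.Agent.H795R2.BA.AbsA

set_option autoImplicit false

open Filter Topology ZeroAtInfty

namespace Pool.Agent.H795R2.BA

section Swindle

variable {X V : Type} [NormedAddCommGroup X] [NormedSpace ℂ X] [NormedAddCommGroup V]
  [NormedSpace ℂ V]

lemma comp_ev_norm (p : V →L[ℂ] V) (s : ℕ) :
    ‖(p.comp (ev0 s) : C₀(ℕ, V) →L[ℂ] V)‖ ≤ ‖p‖ := by
  refine (ContinuousLinearMap.opNorm_comp_le _ _).trans ?_
  have := ev0_norm (V := V) s
  nlinarith [norm_nonneg p]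

/-- S w at s is p w_(s+1) + q w_s -/
noncomputable def Sop (p q : V →L[ℂ] V) : C₀(ℕ, V) →L[ℂ] C₀(ℕ, V) :=
  mk0 (fun s => p.comp (ev0 (s + 1)) + q.comp (ev0 s)) (‖p‖ + ‖q‖) (by
    intro s
    exact (norm_add_le _ _).trans (add_le_add (comp_ev_norm _ _) (comp_ev_norm _ _))) (by
    intro w
    have h1 : Tendsto (fun s => w (s + 1)) atTop (𝓝 0) :=
      (c0_tendsto w).comp (tendsto_add_atTop_nat 1)
    have h2 := ((p.continuous.tendsto _).comp h1).add ((q.continuous.tendsto _).comp (c0_tendsto w))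
    simpa using h2)

lemma Sop_apply (p q : V →L[ℂ] V) (w : C₀(ℕ, V)) (s : ℕ) :
    Sop p q w s = p (w (s + 1)) + q (w s) := rfl

/-- T1 w at 0 is q w_0, at s+1 is p w_s + q w_(s+1) -/
noncomputable def T1op (p q : V →L[ℂ] V) : C₀(ℕ, V) →L[ℂ] C₀(ℕ, V) :=
  mk0 (fun s => (if s = 0 then 0 else p.comp (ev0 (s - 1))) + q.comp (ev0 s)) (‖p‖ + ‖q‖) (by
    intro s
    refine (norm_add_le _ _).trans (add_le_add ?_ (comp_ev_norm _ _))
    split_ifs
    · simp
    · exact comp_ev_norm _ _) (by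
    intro w
    rw [← tendsto_add_atTop_iff_nat 1]
    have h1 : Tendsto (fun s => w (s + 1)) atTop (𝓝 0) :=
      (c0_tendsto w).comp (tendsto_add_atTop_nat 1)
    have h2 := ((p.continuous.tendsto _).comp (c0_tendsto w)).add
      ((q.continuous.tendsto _).comp h1)
    simpa using h2)

lemma T1op_zero (p q : V →L[ℂ] V) (w : C₀(ℕ, V)) : T1op p q w 0 = q (w 0) := by
  simp [T1op]

lemma T1op_succ (p q : V →L[ℂ] V) (w : C₀(ℕ, V)) (s : ℕ) :
    T1op p q w (s + 1) = p (w s) + q (w (s + 1)) := by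
  simp [T1op]

/-- T0 x = (x, 0, 0, ...) -/
noncomputable def T0op : V →L[ℂ] C₀(ℕ, V) :=
  mk0 (fun s => if s = 0 then ContinuousLinearMap.id ℂ V else 0) 1 (by
    intro s
    split_ifs
    · exact ContinuousLinearMap.norm_id_le
    · simp) (by
    intro w
    rw [← tendsto_add_atTop_iff_nat 1]
    simp)

lemma T0op_zero (w : V) : T0op w 0 = w := by
  simp [T0op]

lemma T0op_succ (w : V) (s : ℕ) : T0op w (s + 1) = 0 := by
  simp [T0op]

/-- The swindle, algebraic part. -/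
theorem swindle0 (q : V →L[ℂ] V) (hq : ∀ w, q (q w) = q w) (U : X →L[ℂ] V)
    (hU : ∀ x, q (U x) = U x)
    (u : C₀(ℕ, V) →L[ℂ] X) (v : X →L[ℂ] C₀(ℕ, V)) (huv : ∀ w, v (u w) = w) :
    ∃ (Λ : X × V →L[ℂ] X) (Yo : X →L[ℂ] X) (Z : X →L[ℂ] V) (r : X →L[ℂ] V),
      (∀ y w, Z (Λ (y, w - q w)) = U y + (w - q w)) ∧
      (∀ x, Λ (Yo x, r x - q (r x)) = x) ∧ (∀ x, Z x = U (Yo x) + (r x - q (r x))) ∧
      (∀ x, Z x - q (Z x) = r x - q (r x)) := by
  obtain ⟨p, hp⟩ : ∃ p : V →L[ℂ] V, ∀ w, p w = w - q w :=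
    ⟨ContinuousLinearMap.id ℂ V - q, fun w => rfl⟩
  have hpq : ∀ w, p (q w) = 0 := fun w => by rw [hp, hq, sub_self]
  have hqp : ∀ w, q (p w) = 0 := fun w => by rw [hp, map_sub, hq, sub_self]
  have hpp : ∀ w, p (p w) = p w := fun w => by rw [hp (p w), hqp, sub_zero]
  have hpU : ∀ x, p (U x) = 0 := fun x => by rw [hp, hU, sub_self]
  have hsum : ∀ w, p w + q w = w := fun w => by rw [hp, sub_add_cancel]
  have ST1 : ∀ w, Sop p q (T1op p q w) = w := by
    intro w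
    ext s : 1
    rw [Sop_apply, T1op_succ, map_add p, hpp, hpq]
    rcases s with _ | s
    · rw [T1op_zero, hq]
      rw [add_zero, hsum]
    · rw [T1op_succ, map_add q, hqp, hq]
      rw [add_zero, zero_add, hsum]
  have ST0 : ∀ w, Sop p q (T0op (p w)) = 0 := by
    intro w
    ext s : 1
    rw [Sop_apply, T0op_succ, map_zero, zero_add]
    rcases s with _ | s
    · rw [T0op_zero, hqp]; rfl
    · rw [T0op_succ, map_zero]; rfl
  have TS : ∀ w : C₀(ℕ, V), T0op (p (w 0)) + T1op p q (Sop p q w) = w := by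
    intro w
    ext s : 1
    rw [ZeroAtInftyContinuousMap.add_apply]
    rcases s with _ | s
    · rw [T0op_zero, T1op_zero, Sop_apply, map_add q, hqp, hq, zero_add, hsum]
    · rw [T0op_succ, T1op_succ, Sop_apply, Sop_apply, map_add p, map_add q, hpp, hpq, hqp, hq,
        add_zero, zero_add, zero_add, hsum]
  -- the operators
  obtain ⟨Λ, hΛ⟩ : ∃ Λ : X × V →L[ℂ] X, ∀ y w, Λ (y, w) = y - u (v y) + u (T0op w) +
      u (T1op p q (v y)) := by
    refine ⟨ContinuousLinearMap.fst ℂ X V - (u.comp v).comp (ContinuousLinearMap.fst ℂ X V) +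
      (u.comp T0op).comp (ContinuousLinearMap.snd ℂ X V) +
      (u.comp ((T1op p q).comp v)).comp (ContinuousLinearMap.fst ℂ X V), fun y w => rfl⟩
  obtain ⟨Yo, hY⟩ : ∃ Yo : X →L[ℂ] X, ∀ x, Yo x = x - u (v x) + u (Sop p q (v x)) :=
    ⟨ContinuousLinearMap.id ℂ X - u.comp v + u.comp ((Sop p q).comp v), fun x => rfl⟩
  obtain ⟨r, hr⟩ : ∃ r : X →L[ℂ] V, ∀ x, r x = v x 0 := ⟨(ev0 0).comp v, fun x => rfl⟩
  obtain ⟨Z, hZ⟩ : ∃ Z : X →L[ℂ] V, ∀ x, Z x = U (Yo x) + p (r x) :=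
    ⟨U.comp Yo + p.comp r, fun x => rfl⟩
  have hvΛ : ∀ y w, v (Λ (y, w)) = T0op w + T1op p q (v y) := by
    intro y w
    rw [hΛ, map_add, map_add, map_sub, huv, huv, huv, sub_self, zero_add]
  have hYΛ : ∀ y w, Yo (Λ (y, p w)) = y := by
    intro y w
    rw [hY, hvΛ, map_add (Sop p q), ST0, ST1, map_add u, map_add u, map_zero u, hΛ]
    abel
  have hpΛ : ∀ y w, p (v (Λ (y, p w)) 0) = p w := by
    intro y w
    rw [hvΛ, ZeroAtInftyContinuousMap.add_apply, T0op_zero, T1op_zero, map_add p, hpp, hpq, add_zero]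
  have hΛY : ∀ x, Λ (Yo x, p (v x 0)) = x := by
    intro x
    have h1 : v (Yo x) = Sop p q (v x) := by
      rw [hY, map_add, map_sub, huv, huv, sub_self, zero_add]
    have h2 := congrArg u (TS (v x))
    rw [map_add] at h2
    rw [hΛ, h1, add_assoc, h2, hY]
    abel
  refine ⟨Λ, Yo, Z, r, ?_, ?_, ?_, ?_⟩
  · intro y w
    rw [← hp, hZ, hYΛ, hr, hpΛ]
  · intro x
    rw [← hp, hr, hΛY]
  · intro x
    rw [← hp, hZ]
  · intro x
    rw [← hp, ← hp, hZ, map_add p, hpU, hpp, zero_add]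

end Swindle

/-- null sequences -/
abbrev E0 := C₀(ℕ, ℂ)

/-- The swindle. -/
theorem swindle {X : Type} [NormedAddCommGroup X] [NormedSpace ℂ X]
    (q : E0 →L[ℂ] E0) (hq : ∀ w, q (q w) = q w) (U : X →L[ℂ] E0)
    (hU : ∀ x, q (U x) = U x) (b : ℕ → X) (hb : ∀ k, U (b k) = q (dl k 1))
    (F1 : ∀ x, Tendsto (fun N => ∑ k ∈ Finset.range N, (U x) k • b k) atTop (𝓝 x))
    (F3 : ∀ w : E0, Tendsto (fun N => ∑ k ∈ Finset.range N, (w - q w) k • b k) atTop (𝓝 0))
    (u : C₀(ℕ, E0) →L[ℂ] X) (v : X →L[ℂ] C₀(ℕ, E0)) (huv : ∀ w, v (u w) = w) :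
    ∃ (e : ℕ → X) (e' : ℕ → (X →L[ℂ] ℂ)), (∀ k l, e' k (e l) = if k = l then 1 else 0) ∧
      ∀ x, Tendsto (fun N => ∑ k ∈ Finset.range N, e' k x • e k) atTop (𝓝 x) := by
  obtain ⟨Λ, Yo, Z, r, h1, h2, h3, h4⟩ := swindle0 q hq U hU u v huv
  refine ⟨fun k => Λ (b k, dl k 1 - q (dl k 1)), fun k => (ev0 k).comp Z, ?_, ?_⟩
  · intro k l
    show Z (Λ (b l, dl l 1 - q (dl l 1))) k = _
    rw [h1, hb, add_sub_cancel]
    rfl
  · intro x
    have h5 : ∀ N, ∑ k ∈ Finset.range N, ((ev0 k).comp Z) x • Λ (b k, dl k 1 - q (dl k 1)) =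
        Λ (∑ k ∈ Finset.range N, Z x k • b k, (∑ k ∈ Finset.range N, Z x k • dl k 1) -
          q (∑ k ∈ Finset.range N, Z x k • dl k 1)) := by
      intro N
      have h6 : (∑ k ∈ Finset.range N, Z x k • b k, (∑ k ∈ Finset.range N, Z x k • dl k 1) -
          q (∑ k ∈ Finset.range N, Z x k • dl k 1)) =
          ∑ k ∈ Finset.range N, Z x k • (b k, dl k (1 : ℂ) - q (dl k 1)) := by
        rw [map_sum, ← Finset.sum_sub_distrib]
        simp only [map_smul, Prod.smul_mk, smul_sub]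
        refine Prod.ext ?_ ?_
        · rw [Prod.fst_sum]
        · rw [Prod.snd_sum]
      rw [h6, map_sum]
      exact Finset.sum_congr rfl fun k _ => by
        rw [map_smul]; rfl
    simp only [h5]
    have h7 : Tendsto (fun N => ∑ k ∈ Finset.range N, Z x k • b k) atTop (𝓝 (Yo x)) := by
      have h8 := (F1 (Yo x)).add (F3 (r x))
      rw [add_zero] at h8
      refine h8.congr fun N => ?_
      rw [← Finset.sum_add_distrib]
      refine Finset.sum_congr rfl fun k _ => ?_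
      rw [← add_smul, h3]
      rfl
    have h9 := trunc_tendsto (Z x)
    have h10 := h9.sub ((q.continuous.tendsto _).comp h9)
    rw [h4] at h10
    have h11 := (Λ.continuous.tendsto _).comp (h7.prodMk_nhds h10)
    rw [h2] at h11
    exact h11

end Pool.Agent.H795R2.BA
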