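import Mathlib
import Pool.Agent.H795R2.BA.AbsB

set_option autoImplicit false

open Filter Topology ZeroAtInfty

namespace Pool.Agent.H795R2.BA

section Blocks

variable (M : ℕ → ℕ)

open Classical in
/-- the block of k -/
noncomputable def blk (k : ℕ) : ℕ := if h : ∃ j, k < M (j + 1) then Nat.find h else 0

variable {M} (hM0 : M 0 = 0) (hM : StrictMono M)

include hM in
lemma blk_lt (k : ℕ) : k < M (blk M k + 1) := by
  have h : ∃ j, k < M (j + 1) := ⟨k, lt_of_lt_of_le (Nat.lt_succ_self k) (hM.id_le (k + 1))⟩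
  unfold blk
  rw [dif_pos h]
  exact Nat.find_spec h

include hM0 hM in
lemma le_blk (k : ℕ) : M (blk M k) ≤ k := by
  have h : ∃ j, k < M (j + 1) := ⟨k, lt_of_lt_of_le (Nat.lt_succ_self k) (hM.id_le (k + 1))⟩
  unfold blk
  rw [dif_pos h]
  rcases hj : Nat.find h with _ | j
  · rw [hM0]; exact Nat.zero_le _
  · have := Nat.find_min h (m := j) (by omega)
    omega

include hM in
lemma lt_of_lt_blk {k j : ℕ} (h : M j ≤ k) : j ≤ blk M k := by
  by_contra hc
  rw [not_le] at hc
  have h1 := blk_lt hM k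
  have h2 : M (blk M k + 1) ≤ M j := hM.monotone hc
  omega

include hM0 hM in
lemma blk_lt_of {k j : ℕ} (h : k < M j) : blk M k < j := by
  by_contra hc
  rw [not_lt] at hc
  have h1 := le_blk hM0 hM k
  have h2 : M j ≤ M (blk M k) := hM.monotone hc
  omega

end Blocks

section Data

variable {X : Type} [NormedAddCommGroup X] [NormedSpace ℂ X]
  {M : ℕ → ℕ} (hM0 : M 0 = 0) (hM : StrictMono M) {L : ℕ} {C : ℝ}
  {a : ℕ → (X →L[ℂ] ℂ)} {b : ℕ → X} (ha : ∀ k, ‖a k‖ ≤ C)
  (hb : ∀ (j : ℕ) (c : ℕ → ℂ) (s : Finset ℕ), s ⊆ Finset.Ico (M j) (M (j + 1)) →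
      (∀ k ∈ s, ‖c k‖ ≤ 1) → ‖∑ k ∈ s, c k • b k‖ ≤ C)
  (hR : ∀ x, Tendsto (fun J => ∑ k ∈ Finset.range (M J), a k x • b k) atTop (𝓝 x))
  (hab : ∀ j k l, k < M (j + 1) → M (j + L) ≤ l → a k (b l) = 0 ∧ a l (b k) = 0)

/-- partial sums over complete blocks -/
noncomputable def W (M : ℕ → ℕ) (b : ℕ → X) (K : ℕ) (w : ℕ → ℂ) : X :=
  ∑ l ∈ Finset.range (M K), w l • b l

lemma W_congr {K : ℕ} {w w' : ℕ → ℂ} (h : ∀ l, l < M K → w l = w' l) :
    W M b K w = W M b K w' := by
  unfold W
  refine Finset.sum_congr rfl fun l hl => ?_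
  rw [h l (Finset.mem_range.1 hl)]

lemma W_sub (K : ℕ) (w w' : ℕ → ℂ) :
    W M b K (fun l => w l - w' l) = W M b K w - W M b K w' := by
  unfold W
  rw [← Finset.sum_sub_distrib]
  exact Finset.sum_congr rfl fun l _ => sub_smul _ _ _

lemma W_add (K : ℕ) (w w' : ℕ → ℂ) :
    W M b K (fun l => w l + w' l) = W M b K w + W M b K w' := by
  unfold W
  rw [← Finset.sum_add_distrib]
  exact Finset.sum_congr rfl fun l _ => add_smul _ _ _

include hM in
/-- partial sums with vanishing tail -/
lemma W_stab {K K' : ℕ} (hK : K ≤ K') {w : ℕ → ℂ} (h : ∀ l, M K ≤ l → w l = 0) :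
    W M b K w = W M b K' w := by
  unfold W
  apply Finset.sum_subset
  · intro l hl
    rw [Finset.mem_range] at hl ⊢
    exact lt_of_lt_of_le hl (hM.monotone hK)
  · intro l _ hl
    rw [Finset.mem_range, not_lt] at hl
    rw [h l hl, zero_smul]

include hM in
lemma W_succ (K : ℕ) (w : ℕ → ℂ) :
    W M b (K + 1) w = W M b K w + ∑ l ∈ Finset.Ico (M K) (M (K + 1)), w l • b l := by
  unfold W
  rw [Finset.range_eq_Ico, Finset.range_eq_Ico,
    Finset.sum_Ico_consecutive _ (Nat.zero_le _) (hM.monotone (Nat.le_succ K))]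

include ha in
lemma C_nonneg : 0 ≤ C := (norm_nonneg _).trans (ha 0)

include hb in
lemma block_le (j : ℕ) (w : ℕ → ℂ) (s : Finset ℕ) (hs : s ⊆ Finset.Ico (M j) (M (j + 1)))
    (δ : ℝ) (hδ : 0 ≤ δ) (hw : ∀ k ∈ s, ‖w k‖ ≤ δ) : ‖∑ k ∈ s, w k • b k‖ ≤ C * δ :=
  scale_bound (fun c hc => hb j c s hs hc) w δ hδ hw

include hM hb in
/-- difference of partial sums -/
lemma W_diff (T d : ℕ) (w : ℕ → ℂ) (δ : ℝ) (hδ : 0 ≤ δ) (hw : ∀ k, M T ≤ k → ‖w k‖ ≤ δ) :
    ‖W M b (T + d) w - W M b T w‖ ≤ d * (C * δ) := by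
  induction d with
  | zero => simp
  | succ d ih =>
    rw [← add_assoc, W_succ hM]
    have h1 := block_le hb (T + d) w _ le_rfl δ hδ (fun k hk => hw k (by
      rw [Finset.mem_Ico] at hk
      exact (hM.monotone (Nat.le_add_right T d)).trans hk.1))
    calc ‖W M b (T + d) w + ∑ l ∈ Finset.Ico (M (T + d)) (M (T + d + 1)), w l • b l - W M b T w‖
        = ‖(W M b (T + d) w - W M b T w) +
          ∑ l ∈ Finset.Ico (M (T + d)) (M (T + d + 1)), w l • b l‖ := by congr 1; abel
      _ ≤ d * (C * δ) + C * δ := (norm_add_le _ _).trans (add_le_add ih h1)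
      _ = ((d + 1 : ℕ) : ℝ) * (C * δ) := by push_cast; ring

include hM hab in
/-- a_k sees only a window -/
lemma a_W (j k K : ℕ) (hk : k < M (j + 1)) (hK : j + L ≤ K) (w : ℕ → ℂ) :
    a k (W M b K w) = a k (W M b (j + L) w) := by
  unfold W
  rw [map_sum, map_sum]
  symm
  apply Finset.sum_subset
  · intro l hl
    rw [Finset.mem_range] at hl ⊢
    exact lt_of_lt_of_le hl (hM.monotone hK)
  · intro l _ hl
    rw [Finset.mem_range, not_lt] at hl
    rw [map_smul, (hab j k l hk hl).1, smul_zero]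

include hab in
lemma a_W_low (j k : ℕ) (hk : M (j + L) ≤ k) (w : ℕ → ℂ) : a k (W M b (j + 1) w) = 0 := by
  unfold W
  rw [map_sum]
  apply Finset.sum_eq_zero
  intro l hl
  rw [Finset.mem_range] at hl
  rw [map_smul, (hab j l k hl hk).2, smul_zero]

include hM hR hab in
/-- a_k R_K = a_k -/
lemma a_R (j k K : ℕ) (hk : k < M (j + 1)) (hK : j + L ≤ K) (x : X) :
    a k (W M b K (fun l => a l x)) = a k x := by
  have h1 : Tendsto (fun J => a k (W M b J (fun l => a l x))) atTop (𝓝 (a k x)) :=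
    ((a k).continuous.tendsto _).comp (hR x)
  have h2 : Tendsto (fun J => a k (W M b J (fun l => a l x))) atTop
      (𝓝 (a k (W M b (j + L) (fun l => a l x)))) := by
    apply tendsto_const_nhds.congr'
    filter_upwards [eventually_ge_atTop (j + L)] with J hJ
    rw [a_W hM hab j k J hk hJ]
  rw [a_W hM hab j k K hk hK]
  exact tendsto_nhds_unique h2 h1

include hM0 hM ha hb hab in
/-- the window estimate -/
lemma window_est (hL : 1 ≤ L) (k j : ℕ) (hk1 : M j ≤ k) (w : ℕ → ℂ) (δ : ℝ)
    (hδ : 0 ≤ δ) (hw : ∀ l, M (j + 1 - L) ≤ l → ‖w l‖ ≤ δ) :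
    ‖a k (W M b (j + L) w)‖ ≤ C * ((2 * L : ℕ) * (C * δ)) := by
  have hC0 := C_nonneg ha
  have h1 : a k (W M b (j + 1 - L) w) = 0 := by
    rcases Nat.lt_or_ge j L with h | h
    · have : j + 1 - L = 0 := by omega
      rw [this]
      unfold W
      rw [hM0, Finset.range_zero, Finset.sum_empty, map_zero]
    · have h2 := a_W_low hab (j - L) k (by
        have : j - L + L = j := by omega
        rw [this]; exact hk1) w
      have h3 : j - L + 1 = j + 1 - L := by omega
      rw [h3] at h2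
      exact h2
  have h2 : a k (W M b (j + L) w) = a k (W M b (j + L) w - W M b (j + 1 - L) w) := by
    rw [map_sub, h1, sub_zero]
  rw [h2]
  refine ((a k).le_opNorm _).trans ?_
  obtain ⟨d, hd, hd2⟩ : ∃ d, j + L = j + 1 - L + d ∧ d ≤ 2 * L :=
    ⟨j + L - (j + 1 - L), by omega, by omega⟩
  rw [hd]
  have h3 := W_diff hM hb (j + 1 - L) d w δ hδ hw
  have h4 : (d : ℝ) * (C * δ) ≤ ((2 * L : ℕ) : ℝ) * (C * δ) := by
    apply mul_le_mul_of_nonneg_right _ (by positivity)
    exact_mod_cast hd2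
  calc ‖a k‖ * ‖W M b (j + 1 - L + d) w - W M b (j + 1 - L) w‖
      ≤ C * (d * (C * δ)) := mul_le_mul (ha k) h3 (norm_nonneg _) hC0
    _ ≤ _ := mul_le_mul_of_nonneg_left h4 hC0

/-- the k-th coordinate of q -/
noncomputable def qk (M : ℕ → ℕ) (L : ℕ) (a : ℕ → (X →L[ℂ] ℂ)) (b : ℕ → X) (k : ℕ) :
    E0 →L[ℂ] ℂ :=
  (a k).comp (∑ l ∈ Finset.range (M (blk M k + L)), (ev0 l : E0 →L[ℂ] ℂ).smulRight (b l))

lemma qk_apply (k : ℕ) (w : E0) : qk M L a b k w = a k (W M b (blk M k + L) w) := by
  unfold qk W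
  simp

include hM0 hM ha hb hR hab in
theorem exists_q [CompleteSpace X] (hL : 1 ≤ L) : ∃ (q : E0 →L[ℂ] E0) (U : X →L[ℂ] E0), (∀ w, q (q w) = q w) ∧
    (∀ x, q (U x) = U x) ∧ (∀ k, U (b k) = q (dl k 1)) ∧
    (∀ x, Tendsto (fun N => ∑ k ∈ Finset.range N, (U x) k • b k) atTop (𝓝 x)) ∧
    (∀ w : E0, Tendsto (fun N => ∑ k ∈ Finset.range N, (w - q w) k • b k) atTop (𝓝 0)) := by
  have hC0 := C_nonneg ha
  have hb1 := fun k => le_blk hM0 hM k
  have hb2 := fun k => blk_lt hM k
  -- uniform bound of R_J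
  obtain ⟨CR, hCRn, hCR⟩ : ∃ CR : ℝ, 0 ≤ CR ∧
      ∀ J x, ‖W M b J (fun l => a l x)‖ ≤ CR * ‖x‖ := by
    have h1 := banach_steinhaus (𝕜 := ℂ) (𝕜₂ := ℂ) (σ₁₂ := RingHom.id ℂ)
      (g := fun J : ℕ => ∑ l ∈ Finset.range (M J), (a l).smulRight (b l)) (by
        intro x
        obtain ⟨B, hB⟩ := (hR x).norm.bddAbove_range
        refine ⟨B, fun J => ?_⟩
        have := hB ⟨J, rfl⟩
        simpa using this)
    obtain ⟨CR, h2⟩ := h1
    refine ⟨CR, (norm_nonneg _).trans (h2 0), fun J x => ?_⟩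
    have h3 := (∑ l ∈ Finset.range (M J), (a l).smulRight (b l)).le_of_opNorm_le (h2 J) x
    simpa [W] using h3
  -- a_k x → 0
  have ha0 : ∀ x, Tendsto (fun k => a k x) atTop (𝓝 0) := by
    intro x
    rw [Metric.tendsto_atTop]
    intro ε hε
    obtain ⟨J, hJ⟩ := (Metric.tendsto_atTop.1 (hR x)) (ε / (C + 1)) (by positivity)
    refine ⟨M (J + L), fun k hk => ?_⟩
    have h1 : a k (W M b (J + 1) (fun l => a l x)) = 0 := a_W_low hab J k hk _
    have h2 := hJ (J + 1) (Nat.le_succ J)
    rw [dist_zero_right]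
    have h3 : a k x = a k (x - W M b (J + 1) (fun l => a l x)) := by
      rw [map_sub, h1, sub_zero]
    rw [h3]
    have h4 : ‖x - W M b (J + 1) (fun l => a l x)‖ < ε / (C + 1) := by
      rw [dist_comm, dist_eq_norm] at h2
      exact h2
    calc ‖a k (x - W M b (J + 1) (fun l => a l x))‖
        ≤ C * ‖x - W M b (J + 1) (fun l => a l x)‖ := (a k).le_of_opNorm_le (ha k) _
      _ ≤ C * (ε / (C + 1)) := mul_le_mul_of_nonneg_left h4.le hC0
      _ < ε := by
        rw [mul_div_assoc', div_lt_iff₀ (by positivity)]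
        nlinarith
  have hq1 : ∀ (k : ℕ) (w : E0), ‖qk M L a b k w‖ ≤ (C * ((2 * L : ℕ) * C)) * ‖w‖ := by
    intro k w
    rw [qk_apply]
    have := window_est hM0 hM ha hb hab hL k (blk M k) (hb1 k) w ‖w‖ (norm_nonneg _)
      (fun l _ => c0_norm_apply_le w l)
    linarith
  have hq2 : ∀ w : E0, Tendsto (fun k => qk M L a b k w) atTop (𝓝 0) := by
    intro w
    rw [Metric.tendsto_atTop]
    intro ε hε
    obtain ⟨K, hK⟩ := (Metric.tendsto_atTop.1 (c0_tendsto w))
      (ε / (C * ((2 * L : ℕ) * C) + 1)) (by positivity)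
    refine ⟨M (K + L), fun k hk => ?_⟩
    rw [dist_zero_right, qk_apply]
    have h1 := lt_of_lt_blk hM hk
    have h2 := window_est hM0 hM ha hb hab hL k (blk M k) (hb1 k) w
      (ε / (C * ((2 * L : ℕ) * C) + 1)) (by positivity) (by
        intro l hl
        have h3 : K ≤ l := by
          have h4 := hM.id_le (blk M k + 1 - L)
          simp only [id] at h4
          omega
        have := hK l h3
        rw [dist_zero_right] at this
        exact this.le)
    refine lt_of_le_of_lt h2 ?_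
    have h5 : C * ((2 * L : ℕ) * (C * (ε / (C * ((2 * L : ℕ) * C) + 1)))) =
        (C * ((2 * L : ℕ) * C)) * ε / (C * ((2 * L : ℕ) * C) + 1) := by ring
    rw [h5, div_lt_iff₀ (by positivity)]
    nlinarith
  obtain ⟨q, hq⟩ : ∃ q : E0 →L[ℂ] E0, ∀ w k, q w k = a k (W M b (blk M k + L) w) :=
    ⟨mk0 (fun k => qk M L a b k) (C * ((2 * L : ℕ) * C))
      (fun k => ContinuousLinearMap.opNorm_le_bound _ (by positivity) (hq1 k)) hq2,
      fun w k => by rw [mk0_apply, qk_apply]⟩
  obtain ⟨U, hU⟩ : ∃ U : X →L[ℂ] E0, ∀ x k, U x k = a k x :=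
    ⟨mk0 a C ha ha0, fun x k => rfl⟩
  -- values of q through any larger window
  have hqK : ∀ (w : E0) (k K : ℕ), blk M k + L ≤ K → q w k = a k (W M b K w) := by
    intro w k K hK
    rw [hq, a_W hM hab (blk M k) k K (hb2 k) hK]
  have hWq : ∀ (w : E0) (K K' : ℕ), K + L ≤ K' + 1 →
      W M b K (fun l => q w l) = W M b K (fun l => a l (W M b K' w)) := by
    intro w K K' hK
    refine W_congr fun l hl => ?_
    have h1 := blk_lt_of hM0 hM hl
    exact hqK w l K' (by omega)
  refine ⟨q, U, ?_, ?_, ?_, ?_, ?_⟩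
  · intro w
    ext k
    rw [hq (q w) k]
    have h1 := hWq w (blk M k + L) (blk M k + L + L) (by omega)
    rw [show (⇑(q w) : ℕ → ℂ) = fun l => q w l from rfl, h1,
      a_R hM hR hab (blk M k) k (blk M k + L) (hb2 k) le_rfl]
    rw [← hqK w k (blk M k + L + L) (by omega)]
  · intro x
    ext k
    rw [hq (U x) k, hU]
    have h1 : (⇑(U x) : ℕ → ℂ) = fun l => a l x := funext fun l => hU x l
    rw [h1, a_R hM hR hab (blk M k) k (blk M k + L) (hb2 k) le_rfl]
  · intro k
    ext l
    rw [hU, hq]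
    unfold W
    simp only [dl_apply, ite_smul, one_smul, zero_smul]
    rw [Finset.sum_ite_eq']
    split_ifs with h
    · rfl
    · rw [Finset.mem_range, not_lt] at h
      rw [map_zero, (hab (blk M l) l k (hb2 l) h).1]
  · intro x
    have h0 : ∀ N, ∑ k ∈ Finset.range N, (U x) k • b k = W M b (blk M N) (fun l => a l x) +
        ∑ k ∈ Finset.Ico (M (blk M N)) N, a k x • b k := by
      intro N
      unfold W
      rw [Finset.range_eq_Ico, Finset.range_eq_Ico,
        Finset.sum_Ico_consecutive _ (Nat.zero_le _) (hb1 N)]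
      exact Finset.sum_congr rfl fun k _ => by rw [hU]
    simp only [h0]
    have hblk : Tendsto (fun N => blk M N) atTop atTop := by
      rw [tendsto_atTop_atTop]
      intro j
      exact ⟨M j, fun N hN => lt_of_lt_blk hM hN⟩
    have h1 := (hR x).comp hblk
    have h2 : Tendsto (fun N => ∑ k ∈ Finset.Ico (M (blk M N)) N, a k x • b k) atTop (𝓝 0) := by
      rw [Metric.tendsto_atTop]
      intro ε hε
      obtain ⟨K, hK⟩ := (Metric.tendsto_atTop.1 (ha0 x)) (ε / (C + 1)) (by positivity)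
      refine ⟨M K, fun N hN => ?_⟩
      rw [dist_zero_right]
      have h3 := lt_of_lt_blk hM hN
      have h4 := hM.id_le (blk M N)
      simp only [id] at h4
      refine lt_of_le_of_lt (block_le hb (blk M N) (fun k => a k x) _ (by
        apply Finset.Ico_subset_Ico le_rfl (hb2 N).le) (ε / (C + 1)) (by positivity) (by
        intro k hk
        rw [Finset.mem_Ico] at hk
        have := hK k (by omega)
        rw [dist_zero_right] at this
        exact this.le)) ?_
      rw [mul_div_assoc', div_lt_iff₀ (by positivity)]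
      nlinarith
    have h5 := h1.add h2
    rw [add_zero] at h5
    exact h5
  · intro w
    have hw0 : Tendsto (fun k => (w - q w) k) atTop (𝓝 0) := c0_tendsto _
    have hwt := c0_tendsto w
    -- the main estimate
    have key : ∀ (T : ℕ) (δ : ℝ), 0 ≤ δ → (∀ l, M T ≤ l → ‖w l‖ ≤ δ) →
        ‖W M b (T + L) (fun l => (w - q w) l)‖ ≤ (L : ℝ) * (C * δ) +
          CR * ((2 * L : ℕ) * (C * δ)) := by
      intro T δ hδ hw
      have h1 : W M b (T + L) (fun l => (w - q w) l) =
          W M b (T + L) w - W M b (T + L) (fun l => a l (W M b (T + L + L) w)) := by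
        rw [← hWq w (T + L) (T + L + L) (by omega), ← W_sub]
        rfl
      -- R_(T+L) W_T w = W_T w
      have h2 : W M b (T + L) (fun l => a l (W M b T w)) = W M b T w := by
        have h3 : Tendsto (fun J => W M b J (fun l => a l (W M b T w))) atTop (𝓝 (W M b T w)) :=
          hR _
        have h4 : Tendsto (fun J => W M b J (fun l => a l (W M b T w))) atTop
            (𝓝 (W M b (T + L) (fun l => a l (W M b T w)))) := by
          apply tendsto_const_nhds.congr'
          filter_upwards [eventually_ge_atTop (T + L)] with J hJ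
          refine W_stab hM hJ fun l hl => ?_
          rcases T with _ | T
          · unfold W
            rw [hM0, Finset.range_zero, Finset.sum_empty, map_zero]
          · exact a_W_low hab T l ((hM.monotone (by omega)).trans hl) w
        exact tendsto_nhds_unique h4 h3
      have h3 : W M b (T + L) (fun l => a l (W M b (T + L + L) w)) =
          W M b T w + W M b (T + L) (fun l => a l (W M b (T + L + L) w - W M b T w)) := by
        conv_rhs => rw [← h2]
        rw [h2, ← h2, ← W_add, h2]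
        refine W_congr fun l _ => ?_
        rw [map_sub]
        abel
      rw [h1, h3]
      have h4 := W_diff hM hb T L w δ hδ hw
      have h5 := W_diff hM hb T (2 * L) w δ hδ hw
      have h6 := hCR (T + L) (W M b (T + L + L) w - W M b T w)
      have h7 : T + 2 * L = T + L + L := by omega
      rw [h7] at h5
      calc ‖W M b (T + L) w - (W M b T w +
            W M b (T + L) (fun l => a l (W M b (T + L + L) w - W M b T w)))‖
          = ‖(W M b (T + L) w - W M b T w) -
            W M b (T + L) (fun l => a l (W M b (T + L + L) w - W M b T w))‖ := by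
            congr 1; abel
        _ ≤ ‖W M b (T + L) w - W M b T w‖ +
            ‖W M b (T + L) (fun l => a l (W M b (T + L + L) w - W M b T w))‖ := norm_sub_le _ _
        _ ≤ L * (C * δ) + CR * ‖W M b (T + L + L) w - W M b T w‖ := add_le_add h4 h6
        _ ≤ _ := add_le_add le_rfl (mul_le_mul_of_nonneg_left h5 hCRn)
    have h0 : ∀ N, ∑ k ∈ Finset.range N, (w - q w) k • b k =
        W M b (blk M N) (fun l => (w - q w) l) +
        ∑ k ∈ Finset.Ico (M (blk M N)) N, (w - q w) k • b k := by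
      intro N
      unfold W
      rw [Finset.range_eq_Ico, Finset.range_eq_Ico,
        Finset.sum_Ico_consecutive _ (Nat.zero_le _) (hb1 N)]
    rw [Metric.tendsto_atTop]
    intro ε hε
    set D : ℝ := (L : ℝ) * C + CR * ((2 * L : ℕ) * C) + C + 1 with hD
    have hD0 : 0 < D := by positivity
    obtain ⟨K, hK⟩ := (Metric.tendsto_atTop.1 hwt) (ε / D) (by positivity)
    obtain ⟨K2, hK2⟩ := (Metric.tendsto_atTop.1 hw0) (ε / D) (by positivity)
    refine ⟨M (K + K2 + L), fun N hN => ?_⟩
    have hN2 := lt_of_lt_blk hM hN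
    rw [dist_zero_right, h0]
    have h1 := key (blk M N - L) (ε / D) (by positivity) (by
      intro l hl
      have h2 := hM.id_le (blk M N - L)
      simp only [id] at h2
      have := hK l (by omega)
      rw [dist_zero_right] at this
      exact this.le)
    have e1 : blk M N - L + L = blk M N := by omega
    rw [e1] at h1
    have h2 := block_le hb (blk M N) (fun k => (w - q w) k) (Finset.Ico (M (blk M N)) N) (by
        apply Finset.Ico_subset_Ico le_rfl (hb2 N).le) (ε / D) (by positivity) (by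
        intro k hk
        rw [Finset.mem_Ico] at hk
        have h3 := hM.id_le (blk M N)
        simp only [id] at h3
        have := hK2 k (by omega)
        rw [dist_zero_right] at this
        exact this.le)
    refine lt_of_le_of_lt ((norm_add_le _ _).trans (add_le_add h1 h2)) ?_
    have h3 : (L : ℝ) * (C * (ε / D)) + CR * ((2 * L : ℕ) * (C * (ε / D))) + C * (ε / D) =
        (D - 1) * ε / D := by rw [hD]; ring
    rw [h3, div_lt_iff₀ hD0]
    nlinarith

end Data

end Pool.Agent.H795R2.BA
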