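import Mathlib
import Pool.Agent.H795R2.BA.AbsC

set_option autoImplicit false

open Filter Topology ZeroAtInfty

namespace Pool.Agent.H795R2.BA

/-- reindexing of null sequences of null sequences -/
theorem exists_iota0 {V : Type} [NormedAddCommGroup V] [NormedSpace ℂ V] (c : ℕ → (V →L[ℂ] ℂ))
    (hc : ∀ k, ‖c k‖ ≤ 1) (hc0 : ∀ y, Tendsto (fun k => c k y) atTop (𝓝 0)) :
    ∃ ι : C₀(ℕ, V) →L[ℂ] C₀(ℕ, ℂ), ∀ w m, ι w m = c (Nat.unpair m).2 (w (Nat.unpair m).1) := by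
  suffices h : (∀ m, ‖(c (Nat.unpair m).2).comp (ev0 (V := V) (Nat.unpair m).1)‖ ≤ 1) ∧
      (∀ w : C₀(ℕ, V), Tendsto (fun m => ((c (Nat.unpair m).2).comp
        (ev0 (V := V) (Nat.unpair m).1)) w) atTop (𝓝 0)) from
    ⟨mk0 _ 1 h.1 h.2, fun w m => rfl⟩
  constructor
  · intro m
    refine (ContinuousLinearMap.opNorm_comp_le _ _).trans ?_
    exact mul_le_one₀ (hc _) (norm_nonneg _) (ev0_norm (V := V) (Nat.unpair m).1)
  · intro w
    rw [Metric.tendsto_atTop]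
    intro ε hε
    obtain ⟨S, hS⟩ := (Metric.tendsto_atTop.1 (c0_tendsto w)) ε hε
    have h1 : ∀ s : ℕ, ∃ K, ∀ k ≥ K, ‖c k (w s)‖ < ε := by
      intro s
      obtain ⟨K, hK⟩ := (Metric.tendsto_atTop.1 (hc0 (w s))) ε hε
      exact ⟨K, fun k hk => by
        have := hK k hk
        rwa [dist_zero_right] at this⟩
    choose K hK using h1
    have hfin : Set.Finite ((fun q : ℕ × ℕ => Nat.pair q.1 q.2) ''
        ((Finset.range S ×ˢ Finset.range (∑ s ∈ Finset.range S, K s) : Finset (ℕ × ℕ)) :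
          Set (ℕ × ℕ))) := (Finset.finite_toSet _).image _
    obtain ⟨B, hB⟩ := hfin.bddAbove
    refine ⟨B + 1, fun m hm => ?_⟩
    rw [dist_zero_right]
    show ‖c (Nat.unpair m).2 (w (Nat.unpair m).1)‖ < ε
    by_cases h2 : S ≤ (Nat.unpair m).1
    · have h3 := hS _ h2
      rw [dist_zero_right] at h3
      refine lt_of_le_of_lt ((c _).le_of_opNorm_le (hc _) _) ?_
      rw [one_mul]
      exact h3
    · rw [not_le] at h2
      apply hK
      by_contra h3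
      rw [ge_iff_le, not_le] at h3
      have h4 : K (Nat.unpair m).1 ≤ ∑ s ∈ Finset.range S, K s :=
        Finset.single_le_sum (f := K) (fun _ _ => Nat.zero_le _) (Finset.mem_range.2 h2)
      have h5 : m ∈ ((fun q : ℕ × ℕ => Nat.pair q.1 q.2) ''
        ((Finset.range S ×ˢ Finset.range (∑ s ∈ Finset.range S, K s) : Finset (ℕ × ℕ)) :
          Set (ℕ × ℕ))) := by
        refine ⟨Nat.unpair m, ?_, Nat.pair_unpair m⟩
        rw [Finset.mem_coe, Finset.mem_product, Finset.mem_range, Finset.mem_range]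
        exact ⟨h2, lt_of_lt_of_le h3 h4⟩
      have h6 := hB h5
      omega

theorem exists_iota : ∃ ι : C₀(ℕ, E0) →L[ℂ] E0, ∀ w m,
    ι w m = w (Nat.unpair m).1 (Nat.unpair m).2 :=
  exists_iota0 (V := E0) (fun k => ev0 k) (fun k => ev0_norm k) (fun y => c0_tendsto y)

/-- operator into double null sequences -/
theorem exists_v {X : Type} [NormedAddCommGroup X] [NormedSpace ℂ X] (C : ℝ)
    (v : ℕ → (X →L[ℂ] ℂ)) (hv : ∀ k, ‖v k‖ ≤ C)
    (hv0 : ∀ x, Tendsto (fun k => v k x) atTop (𝓝 0)) :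
    ∃ V : X →L[ℂ] C₀(ℕ, E0), ∀ x s k, V x s k = v (Nat.pair s k) x := by
  have hC0 : 0 ≤ C := (norm_nonneg _).trans (hv 0)
  have h1 : ∀ (s : ℕ) (x : X), Tendsto (fun k => v (Nat.pair s k) x) atTop (𝓝 0) := by
    intro s x
    apply (hv0 x).comp
    rw [tendsto_atTop_atTop]
    exact fun B => ⟨B, fun k hk => hk.trans (Nat.right_le_pair s k)⟩
  obtain ⟨r, hr⟩ : ∃ r : ℕ → (X →L[ℂ] E0), ∀ s, ‖r s‖ ≤ C ∧ ∀ x k, r s x k = v (Nat.pair s k) x := by
    refine ⟨fun s => mk0 (fun k => v (Nat.pair s k)) C (fun k => hv _) (h1 s), fun s => ⟨?_, ?_⟩⟩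
    · exact LinearMap.mkContinuous_norm_le _ hC0 _
    · intro x k
      rfl
  refine ⟨mk0 r C (fun s => (hr s).1) ?_, fun x s k => (hr s).2 x k⟩
  intro x
  rw [Metric.tendsto_atTop]
  intro ε hε
  obtain ⟨S, hS⟩ := (Metric.tendsto_atTop.1 (hv0 x)) (ε / 2) (by positivity)
  refine ⟨S, fun s hs => ?_⟩
  rw [dist_zero_right]
  refine lt_of_le_of_lt (c0_norm_le _ (B := ε / 2) (by positivity) fun k => ?_) (by linarith)
  rw [(hr s).2]
  have h2 := hS (Nat.pair s k) (hs.le.trans (Nat.left_le_pair s k))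
  rw [dist_zero_right] at h2
  exact h2.le

/-- Task T: the abstract theorem -/
theorem abstract_basis {X : Type} [NormedAddCommGroup X] [NormedSpace ℂ X] [CompleteSpace X]
    (M : ℕ → ℕ) (hM0 : M 0 = 0) (hM : StrictMono M) (L : ℕ) (C : ℝ)
    (a : ℕ → (X →L[ℂ] ℂ)) (b : ℕ → X) (ha : ∀ k, ‖a k‖ ≤ C)
    (hb : ∀ (j : ℕ) (c : ℕ → ℂ) (s : Finset ℕ), s ⊆ Finset.Ico (M j) (M (j + 1)) →
      (∀ k ∈ s, ‖c k‖ ≤ 1) → ‖∑ k ∈ s, c k • b k‖ ≤ C)
    (hR : ∀ x, Tendsto (fun J => ∑ k ∈ Finset.range (M J), a k x • b k) atTop (𝓝 x))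
    (hab : ∀ j k l, k < M (j + 1) → M (j + L) ≤ l → a k (b l) = 0 ∧ a l (b k) = 0)
    (g : ℕ → X) (v : ℕ → (X →L[ℂ] ℂ))
    (hg : ∀ (c : ℕ → ℂ) (s : Finset ℕ), (∀ k ∈ s, ‖c k‖ ≤ 1) → ‖∑ k ∈ s, c k • g k‖ ≤ C)
    (hv : ∀ k, ‖v k‖ ≤ C) (hv0 : ∀ x, Tendsto (fun k => v k x) atTop (𝓝 0))
    (hvg : ∀ k l, v k (g l) = if k = l then 1 else 0) :
    ∃ (e : ℕ → X) (e' : ℕ → (X →L[ℂ] ℂ)), (∀ k l, e' k (e l) = if k = l then 1 else 0) ∧
      ∀ x, Tendsto (fun N => ∑ k ∈ Finset.range N, e' k x • e k) atTop (𝓝 x) := by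
  obtain ⟨q, U, h1, h2, h3, h4, h5⟩ := exists_q (L := L + 1) hM0 hM ha hb hR
    (fun j k l hk hl => hab j k l hk ((hM.monotone (by omega)).trans hl)) (by omega)
  obtain ⟨ι, hι⟩ := exists_iota
  obtain ⟨V, hV⟩ := exists_v C v hv hv0
  refine swindle q h1 U h2 b h3 h4 h5 ((gam0 g C hg).comp ι) V ?_
  intro w
  ext s k
  rw [hV]
  have h6 := gam0_hasSum g C hg (ι w)
  have h7 := (v (Nat.pair s k)).hasSum h6
  have h8 : HasSum (fun m => v (Nat.pair s k) (ι w m • g m)) (ι w (Nat.pair s k)) := by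
    have h9 : ∀ m, v (Nat.pair s k) (ι w m • g m) = if m = Nat.pair s k then ι w m else 0 := by
      intro m
      rw [map_smul, hvg, smul_eq_mul]
      by_cases h : m = Nat.pair s k
      · rw [if_pos h.symm, if_pos h, mul_one]
      · rw [if_neg (Ne.symm h), if_neg h, mul_zero]
    simp only [h9]
    have h10 := hasSum_ite_eq (Nat.pair s k) (ι w (Nat.pair s k))
    convert h10 using 2 with m
    split_ifs with h
    · rw [h]
    · rfl
  have h11 := h7.unique h8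
  rw [hι, Nat.unpair_pair] at h11
  exact h11

end Pool.Agent.H795R2.BA
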