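import Mathlib
import Pool.Agent.HpBall2.Defs

set_option autoImplicit false

open MeasureTheory Complex Filter Topology

namespace Pool.Agent.H795R2.BA

open Pool.Agent.HpBall Pool.Agent.HpBall2

/-- smooth cut off: 1 on (-inf,1], 0 on [2,inf) -/
noncomputable def ph (x : ℝ) : ℝ := Real.smoothTransition (2 - x)

/-- the dyadic bump, supported in [1/2,2] -/
noncomputable def bt (x : ℝ) : ℝ := ph x - ph (2 * x)

/-- the multiplier of the j-th dyadic block: degree 0 for j = 0, degrees in (2^(j-2), 2^j) for j > 0 -/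
noncomputable def mu (j k : ℕ) : ℝ :=
  if j = 0 then (if k = 0 then 1 else 0) else bt ((k : ℝ) / 2 ^ (j - 1))

/-- the multiplier of the sum of the blocks j < J -/
noncomputable def ru (J k : ℕ) : ℝ := ∑ j ∈ Finset.range J, mu j k

/-- the kernel of the j-th block on the sphere -/
noncomputable def Ker (n j : ℕ) (ζ z : E n) : ℂ :=
  ∑ k ∈ Finset.range (2 ^ j + 1), ((mu j k * cn n k : ℝ) : ℂ) * (inner ℂ ζ z : ℂ) ^ k

end Pool.Agent.H795R2.BA
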