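import Mathlib
import Pool.Agent.H795R2.BA.Defs
import Pool.Agent.HpBall2.HcProps
import Pool.Agent.HpBall.Coef

set_option autoImplicit false

open MeasureTheory Complex Filter Topology

namespace Pool.Agent.H795R2.BA

open Pool.Agent.HpBall Pool.Agent.HpBall2

/-- Cauchy estimate for the homogeneous components -/
theorem F_cauchy {n : ℕ} {f : E n → ℂ} (hd : DifferentiableOn ℂ f (Metric.ball 0 1)) {B : ℝ}
    (hB : ∀ z : E n, ‖z‖ < 1 → ‖f z‖ ≤ B) {z : E n} (hz : ‖z‖ ≤ 1) {s : ℝ} (hs0 : 0 < s)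
    (hs1 : s < 1) (k : ℕ) : ‖hc f k z‖ * s ^ k ≤ B := by
  have hmem : ∀ w : ℂ, ‖w‖ < 1 → ‖w • z‖ < 1 := by
    intro w hw
    rw [norm_smul]
    calc ‖w‖ * ‖z‖ ≤ ‖w‖ * 1 := mul_le_mul_of_nonneg_left hz (norm_nonneg _)
      _ < 1 := by rw [mul_one]; exact hw
  have hG : DifferentiableOn ℂ (fun w : ℂ => f (w • z)) (Metric.ball 0 1) := by
    apply hd.comp (f := fun w : ℂ => w • z)
    · exact (differentiable_id.smul_const z).differentiableOn
    · intro w hw
      rw [mem_ball_zero_iff] at hw ⊢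
      exact hmem w hw
  have h1 := J15_coef hG hs0 hs1 k
  have h2 : ‖∫ θ in (0:ℝ)..(2 * Real.pi), Complex.exp (-(θ * I)) ^ k *
      (fun w : ℂ => f (w • z)) (s * Complex.exp (θ * I))‖ ≤ B * |2 * Real.pi - 0| := by
    apply intervalIntegral.norm_integral_le_of_norm_le_const
    intro θ _
    have e1 : ‖Complex.exp (-(θ * I))‖ = 1 := by
      have : -((θ : ℂ) * I) = ((-θ : ℝ) : ℂ) * I := by push_cast; ring
      rw [this, Complex.norm_exp_ofReal_mul_I]
    rw [norm_mul, norm_pow, e1, one_pow, one_mul]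
    apply hB
    apply hmem
    rw [norm_mul, Complex.norm_exp_ofReal_mul_I, mul_one, Complex.norm_real,
      Real.norm_of_nonneg hs0.le]
    exact hs1
  have hpi := Real.pi_pos
  rw [h1, sub_zero, abs_of_pos (by positivity), norm_mul, norm_mul, norm_mul, norm_pow,
    Complex.norm_real, Complex.norm_real, Real.norm_of_nonneg hpi.le,
    Real.norm_of_nonneg hs0.le] at h2
  have h3 : ‖(2 : ℂ)‖ = 2 := by norm_num
  rw [h3] at h2
  have h4 : 2 * Real.pi * (‖tc (fun w : ℂ => f (w • z)) k‖ * s ^ k) ≤ 2 * Real.pi * B := by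
    linarith
  exact le_of_mul_le_mul_left h4 (by positivity)

/-- Task F -/
theorem density (n : ℕ) (f : E n → ℂ) (hf : ContinuousOn f (Metric.closedBall 0 1))
    (hd : DifferentiableOn ℂ f (Metric.ball 0 1)) (ε : ℝ) (hε : 0 < ε) :
    ∃ (K : ℕ) (t : ℕ → ℝ), ∀ z : E n, ‖z‖ ≤ 1 →
      ‖f z - ∑ k ∈ Finset.range K, (t k : ℂ) * hc f k z‖ ≤ ε := by
  have hcomp : IsCompact (Metric.closedBall (0 : E n) 1) := isCompact_closedBall 0 1
  obtain ⟨B, hB⟩ := hcomp.exists_bound_of_continuousOn hf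
  have hB' : ∀ z : E n, ‖z‖ ≤ 1 → ‖f z‖ ≤ B := fun z hz =>
    hB z (by rw [mem_closedBall_zero_iff]; exact hz)
  have huc := hcomp.uniformContinuousOn_of_continuous hf
  rw [Metric.uniformContinuousOn_iff] at huc
  obtain ⟨δ, hδ, huc⟩ := huc (ε / 2) (by positivity)
  set r : ℝ := 1 - min (δ / 2) (1 / 2) with hr
  have hm0 : 0 < min (δ / 2) (1 / 2) := lt_min (by positivity) (by norm_num)
  have hm1 : min (δ / 2) (1 / 2) ≤ 1 / 2 := min_le_right _ _
  have hm2 : min (δ / 2) (1 / 2) ≤ δ / 2 := min_le_left _ _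
  have hr0 : 0 < r := by rw [hr]; linarith
  have hr1 : r < 1 := by rw [hr]; linarith
  set s : ℝ := (1 + r) / 2 with hs
  have hs0 : 0 < s := by rw [hs]; linarith
  have hs1 : s < 1 := by rw [hs]; linarith
  have hrs : r < s := by rw [hs]; linarith
  set q : ℝ := r / s with hq
  have hq0 : 0 < q := by positivity
  have hq1 : q < 1 := by rw [hq, div_lt_one hs0]; exact hrs
  have htail : Tendsto (fun K : ℕ => B * q ^ K / (1 - q)) atTop (𝓝 0) := by
    have := (tendsto_pow_atTop_nhds_zero_of_lt_one hq0.le hq1).const_mul B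
    have := this.div_const (1 - q)
    simpa using this
  have hev : ∀ᶠ K : ℕ in atTop, B * q ^ K / (1 - q) < ε / 2 :=
    htail.eventually_lt_const (by positivity)
  obtain ⟨K, hK⟩ := hev.exists
  obtain ⟨_, hhom, hsum⟩ := hc_props n f hd
  refine ⟨K, fun k => r ^ k, fun z hz => ?_⟩
  have hrz : ‖(r : ℂ) • z‖ < 1 := by
    rw [norm_smul, Complex.norm_real, Real.norm_of_nonneg hr0.le]
    calc r * ‖z‖ ≤ r * 1 := mul_le_mul_of_nonneg_left hz hr0.le
      _ < 1 := by rw [mul_one]; exact hr1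
  have h1 : ‖f z - f ((r : ℂ) • z)‖ ≤ ε / 2 := by
    have hdist : dist z ((r : ℂ) • z) < δ := by
      rw [dist_eq_norm]
      have e : z - (r : ℂ) • z = ((1 - r : ℝ) : ℂ) • z := by
        push_cast
        rw [sub_smul, one_smul]
      rw [e, norm_smul, Complex.norm_real, Real.norm_of_nonneg (by linarith)]
      calc (1 - r) * ‖z‖ ≤ (1 - r) * 1 := mul_le_mul_of_nonneg_left hz (by linarith)
        _ < δ := by rw [mul_one, hr]; linarith
    have := huc z (by rw [mem_closedBall_zero_iff]; exact hz) ((r : ℂ) • z)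
      (by rw [mem_closedBall_zero_iff]; exact hrz.le) hdist
    rw [dist_eq_norm] at this
    exact this.le
  have h2 := (hsum ((r : ℂ) • z) hrz).2
  have h3 : ∀ k : ℕ, ‖hc f k ((r : ℂ) • z)‖ ≤ B * q ^ k := by
    intro k
    rw [hhom, norm_mul, norm_pow, Complex.norm_real, Real.norm_of_nonneg hr0.le]
    have h4 := F_cauchy hd (fun w hw => hB' w hw.le) hz hs0 hs1 k
    have h5 : r ^ k = q ^ k * s ^ k := by
      rw [← mul_pow, hq, div_mul_cancel₀ _ hs0.ne']
    rw [h5]
    calc q ^ k * s ^ k * ‖hc f k z‖ = q ^ k * (‖hc f k z‖ * s ^ k) := by ring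
      _ ≤ q ^ k * B := mul_le_mul_of_nonneg_left h4 (by positivity)
      _ = B * q ^ k := by ring
  have h6 := norm_sub_le_of_geometric_bound_of_hasSum hq1 h3 h2 K
  have h7 : ∑ k ∈ Finset.range K, hc f k ((r : ℂ) • z) =
      ∑ k ∈ Finset.range K, ((r ^ k : ℝ) : ℂ) * hc f k z := by
    apply Finset.sum_congr rfl
    intro k _
    rw [hhom]
    push_cast
    rfl
  rw [h7] at h6
  have h8 : f z - ∑ k ∈ Finset.range K, ((r ^ k : ℝ) : ℂ) * hc f k z =
      (f z - f ((r : ℂ) • z)) - (∑ k ∈ Finset.range K, ((r ^ k : ℝ) : ℂ) * hc f k z -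
        f ((r : ℂ) • z)) := by ring
  rw [h8]
  refine (norm_sub_le _ _).trans ?_
  linarith

end Pool.Agent.H795R2.BA
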