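import Mathlib
import Pool.Agent.H795R2.BA.Defs
import Pool.Agent.HpBall2.KkDecay
import Pool.Agent.HpBall.KerInt

set_option autoImplicit false

open MeasureTheory Complex Filter Topology
open scoped ENNReal NNReal

namespace Pool.Agent.H795R2.BA

open Pool.Agent.HpBall Pool.Agent.HpBall2

theorem C_ph_smooth : ContDiff ℝ (⊤ : ℕ∞) ph := by
  unfold ph
  exact Real.smoothTransition.contDiff.comp (contDiff_const.sub contDiff_id)

theorem C_ph_one {x : ℝ} (hx : x ≤ 1) : ph x = 1 := by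
  unfold ph
  exact Real.smoothTransition.one_of_one_le (by linarith)

theorem C_ph_zero {x : ℝ} (hx : 2 ≤ x) : ph x = 0 := by
  unfold ph
  exact Real.smoothTransition.zero_of_nonpos (by linarith)

theorem C_bt_bump : Bump bt (1 / 2) 2 where
  apos := by norm_num
  ab := by norm_num
  smooth := by
    unfold bt
    exact C_ph_smooth.sub (C_ph_smooth.comp (contDiff_const.mul contDiff_id))
  lo := fun x hx => by
    unfold bt
    rw [C_ph_one (by linarith), C_ph_one (by linarith), sub_self]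
  hi := fun x hx => by
    unfold bt
    rw [C_ph_zero hx, C_ph_zero (by linarith), sub_self]

theorem C_Ker_eq (n j : ℕ) (ζ z : E n) :
    Ker n (j + 1) ζ z = kk n bt ((2 : ℝ) ^ j) ζ z := by
  unfold Ker kk
  rw [tsum_eq_sum (s := Finset.range (2 ^ (j + 1) + 1))]
  · apply Finset.sum_congr rfl
    intro k _
    unfold mu
    rw [if_neg (Nat.succ_ne_zero j), Nat.add_sub_cancel]
  · intro k hk
    rw [Finset.mem_range, not_lt] at hk
    have h1 : (2 : ℝ) ≤ (k : ℝ) / 2 ^ j := by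
      rw [le_div_iff₀ (by positivity)]
      have : ((2 ^ (j + 1) + 1 : ℕ) : ℝ) ≤ k := by exact_mod_cast hk
      push_cast at this
      rw [pow_succ] at this
      linarith
    have h2 : bt ((k : ℝ) / 2 ^ j) = 0 := C_bt_bump.hi _ h1
    rw [h2]
    simp

theorem C_polar (n : ℕ) (hn : 1 ≤ n) (z : E n) : ∃ ξ : E n, ‖ξ‖ = 1 ∧ z = ((‖z‖ : ℝ) : ℂ) • ξ := by
  by_cases hz : z = 0
  · subst hz
    refine ⟨EuclideanSpace.single ⟨0, by omega⟩ 1, ?_, ?_⟩
    · simp
    · simp
  · have hz' : ‖z‖ ≠ 0 := norm_ne_zero_iff.mpr hz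
    refine ⟨((‖z‖⁻¹ : ℝ) : ℂ) • z, ?_, ?_⟩
    · rw [norm_smul, Complex.norm_real, Real.norm_of_nonneg (by positivity),
        inv_mul_cancel₀ hz']
    · rw [smul_smul, ← Complex.ofReal_mul, mul_inv_cancel₀ hz', Complex.ofReal_one, one_smul]

theorem C_Ker_cont (n j : ℕ) (z : E n) : Continuous (fun ζ : E n => Ker n j ζ z) := by
  unfold Ker
  apply continuous_finsetSum
  intro k _
  apply Continuous.mul continuous_const
  apply Continuous.pow
  exact continuous_id.inner continuous_const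

/-- Task C -/
theorem ker_L1 (n : ℕ) (hn : 1 ≤ n) : ∃ C : ℝ, 0 < C ∧ ∀ (j : ℕ) (z : E n), ‖z‖ ≤ 1 →
    ∫ ζ, ‖Ker n j ζ z‖ ∂(sig n) ≤ C := by
  obtain ⟨B, hB0, hB⟩ := kk_decay n hn bt (1 / 2) 2 C_bt_bump ((n : ℝ) + 1) (by positivity) 1
    one_pos
  obtain ⟨C, hC0, hC⟩ := kernel_int n hn ((n : ℝ) + 1) (by linarith)
  set M : ℝ := ∫ _ζ : E n, ‖((cn n 0 : ℝ) : ℂ)‖ ∂(sig n) with hM
  have hM0 : 0 ≤ M := integral_nonneg fun _ => norm_nonneg _
  refine ⟨B * C + M, by positivity, ?_⟩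
  intro j z hz
  rcases j with _ | j
  · have h1 : ∀ ζ : E n, Ker n 0 ζ z = ((cn n 0 : ℝ) : ℂ) := by
      intro ζ
      unfold Ker
      rw [show (2 ^ 0 + 1 : ℕ) = 2 by norm_num, Finset.sum_range_succ, Finset.sum_range_one]
      unfold mu
      simp
    simp only [h1]
    have : 0 ≤ B * C := by positivity
    linarith
  · obtain ⟨ξ, hξ, hzξ⟩ := C_polar n hn z
    set N : ℝ := (2 : ℝ) ^ j with hN
    have hN1 : 1 ≤ N := one_le_pow₀ (by norm_num)
    have hN0 : 0 < N := by linarith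
    have hle : ∫⁻ ζ, ENNReal.ofReal ‖Ker n (j + 1) ζ z‖ ∂(sig n) ≤ ENNReal.ofReal (B * C) := by
      calc ∫⁻ ζ, ENNReal.ofReal ‖Ker n (j + 1) ζ z‖ ∂(sig n)
          ≤ ∫⁻ ζ, ENNReal.ofReal (B * N ^ (n : ℝ)) *
              ENNReal.ofReal ((1 + N * rho ζ ξ) ^ (-((n : ℝ) + 1))) ∂(sig n) := by
            apply lintegral_mono_ae
            filter_upwards [sig_ae_norm hn] with ζ hζ
            rw [← ENNReal.ofReal_mul (by positivity)]
            apply ENNReal.ofReal_le_ofReal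
            rw [C_Ker_eq, hzξ, rho_comm ζ ξ]
            exact hB N hN1 ζ ξ hζ hξ ‖z‖ (norm_nonneg _) hz
        _ = ENNReal.ofReal (B * N ^ (n : ℝ)) *
              ∫⁻ ζ, ENNReal.ofReal ((1 + N * rho ζ ξ) ^ (-((n : ℝ) + 1))) ∂(sig n) :=
            lintegral_const_mul' _ _ ENNReal.ofReal_ne_top
        _ ≤ ENNReal.ofReal (B * N ^ (n : ℝ)) * ENNReal.ofReal (C * N ^ (-(n : ℝ))) := by
            gcongr
            exact hC ξ hξ N hN0
        _ = ENNReal.ofReal (B * C) := by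
            rw [← ENNReal.ofReal_mul (by positivity)]
            congr 1
            rw [Real.rpow_neg hN0.le]
            have : N ^ (n : ℝ) ≠ 0 := (Real.rpow_pos_of_pos hN0 _).ne'
            field_simp
    rw [integral_eq_lintegral_of_nonneg_ae (Eventually.of_forall fun _ => norm_nonneg _)
      (C_Ker_cont n (j + 1) z).norm.aestronglyMeasurable]
    have h3 := ENNReal.toReal_mono ENNReal.ofReal_ne_top hle
    rw [ENNReal.toReal_ofReal (by positivity)] at h3
    linarith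

end Pool.Agent.H795R2.BA
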