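import Mathlib
import Pool.Agent.H795R2.BA.Defs
import Pool.Agent.HpBall.Coef

set_option autoImplicit false

open MeasureTheory Complex Filter Topology

namespace Pool.Agent.H795R2.BA

open Pool.Agent.HpBall Pool.Agent.HpBall2

lemma rub_ph_one {x : ℝ} (hx : x ≤ 1) : ph x = 1 := by
  unfold ph
  exact Real.smoothTransition.one_of_one_le (by linarith)

lemma rub_ph_zero {x : ℝ} (hx : 2 ≤ x) : ph x = 0 := by
  unfold ph
  exact Real.smoothTransition.zero_of_nonpos (by linarith)

lemma rub_ph_smooth : ContDiff ℝ (⊤ : ℕ∞) ph := by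
  unfold ph
  exact Real.smoothTransition.contDiff.comp (contDiff_const.sub contDiff_id)

/-- telescoping -/
lemma rub_tel (J k : ℕ) : ru (J + 2) k = ph ((k : ℝ) / 2 ^ J) := by
  induction J with
  | zero =>
    unfold ru
    rw [Finset.sum_range_succ, Finset.sum_range_succ, Finset.sum_range_zero, zero_add]
    unfold mu bt
    rcases Nat.eq_zero_or_pos k with hk | hk
    · subst hk
      simp
      rw [rub_ph_one (by norm_num)]
    · have h2 : ph (2 * (k : ℝ)) = 0 := by
        apply rub_ph_zero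
        have : (1 : ℝ) ≤ k := by exact_mod_cast hk
        linarith
      simp [hk.ne', h2]
  | succ J ih =>
    have h1 : ru (J + 1 + 2) k = ru (J + 2) k + mu (J + 2) k := by
      unfold ru
      rw [Finset.sum_range_succ]
    rw [h1, ih]
    unfold mu bt
    rw [if_neg (by omega)]
    have h2 : J + 2 - 1 = J + 1 := by omega
    rw [h2]
    have h3 : 2 * ((k : ℝ) / 2 ^ (J + 1)) = (k : ℝ) / 2 ^ J := by
      rw [pow_succ]; field_simp
    rw [h3]
    ring

/-- the shifted bump -/
noncomputable def rub_g (x : ℝ) : ℝ := ph (x - 3) * ph (3 - x)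

lemma rub_bump : Bump rub_g 1 5 where
  apos := one_pos
  ab := by norm_num
  smooth := by
    unfold rub_g
    exact (rub_ph_smooth.comp (contDiff_id.sub contDiff_const)).mul
      (rub_ph_smooth.comp (contDiff_const.sub contDiff_id))
  lo := by
    intro x hx
    unfold rub_g
    rw [rub_ph_zero (x := 3 - x) (by linarith), mul_zero]
  hi := by
    intro x hx
    unfold rub_g
    rw [rub_ph_zero (x := x - 3) (by linarith), zero_mul]

lemma rub_g_eq {x : ℝ} (hx : 0 ≤ x) : rub_g (x + 3) = ph x := by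
  unfold rub_g
  rw [rub_ph_one (x := 3 - (x + 3)) (by linarith), mul_one]
  congr 1
  ring

/-- negative coefficients vanish -/
lemma rub_neg {h : ℂ → ℂ} (hd : DifferentiableOn ℂ h (Metric.ball 0 1)) {r : ℝ} (hr0 : 0 < r)
    (hr1 : r < 1) {m : ℕ} (hm : 1 ≤ m) :
    ∫ θ in (0:ℝ)..(2 * Real.pi), Complex.exp (θ * I) ^ m * h (r * Complex.exp (θ * I)) = 0 := by
  have hG : DifferentiableOn ℂ (fun z : ℂ => z ^ m * h z) (Metric.ball 0 1) :=
    (differentiable_id.pow m).differentiableOn.mul hd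
  have h1 := J15_coef hG hr0 hr1 0
  have h2 : tc (fun z : ℂ => z ^ m * h z) 0 = 0 := by
    have h0m : (0 : ℂ) ^ m = 0 := zero_pow (by omega)
    unfold tc
    simp [h0m]
  rw [h2] at h1
  have h3 : ∀ θ : ℝ, Complex.exp (-(θ * I)) ^ 0 *
      ((fun z : ℂ => z ^ m * h z) (r * Complex.exp (θ * I))) =
      (r : ℂ) ^ m * (Complex.exp (θ * I) ^ m * h (r * Complex.exp (θ * I))) := by
    intro θ
    simp only [pow_zero, one_mul]
    rw [mul_pow]
    ring
  simp_rw [h3] at h1
  rw [intervalIntegral.integral_const_mul] at h1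
  have hrc : (r : ℂ) ^ m ≠ 0 := pow_ne_zero _ (by exact_mod_cast hr0.ne')
  have h4 : (r : ℂ) ^ m * ∫ θ in (0:ℝ)..(2 * Real.pi), Complex.exp (θ * I) ^ m *
      h (r * Complex.exp (θ * I)) = 0 := by
    rw [h1]; ring
  exact (mul_eq_zero.1 h4).resolve_left hrc

/-- the representation of the partial sum -/
lemma rub_repr {h : ℂ → ℂ} (hd : DifferentiableOn ℂ h (Metric.ball 0 1)) {r : ℝ} (hr0 : 0 < r)
    (hr1 : r < 1) (N : ℕ) (hN : 1 ≤ N) :
    ∫ θ in (0:ℝ)..(2 * Real.pi), ker rub_g N (Complex.exp (-(θ * I))) *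
      (Complex.exp (θ * I) ^ (3 * N) * h (r * Complex.exp (θ * I))) =
      2 * Real.pi * ∑ k ∈ Finset.range (2 * N), (ph ((k : ℝ) / N) : ℂ) * (tc h k * r ^ k) := by
  have hN0 : (0 : ℝ) < N := by exact_mod_cast hN
  have hexp : ∀ θ : ℝ, Complex.exp (-(θ * I)) * Complex.exp (θ * I) = 1 := by
    intro θ
    rw [← Complex.exp_add, neg_add_cancel, Complex.exp_zero]
  have c1 : Continuous fun θ : ℝ => h (r * Complex.exp (θ * I)) := J15_cont hd hr0 hr1
  have d1 : ∀ m : ℕ, Continuous fun θ : ℝ => (rub_g ((m : ℝ) / N) : ℂ) *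
      (Complex.exp (-(θ * I)) ^ m * (Complex.exp (θ * I) ^ (3 * N) * h (r * Complex.exp (θ * I)))) := by
    intro m
    have e1 : Continuous fun θ : ℝ => Complex.exp (-(θ * I)) ^ m := by fun_prop
    have e2 : Continuous fun θ : ℝ => Complex.exp (θ * I) ^ (3 * N) := by fun_prop
    exact continuous_const.mul (e1.mul (e2.mul c1))
  have hker : ∀ θ : ℝ, ker rub_g N (Complex.exp (-(θ * I))) *
      (Complex.exp (θ * I) ^ (3 * N) * h (r * Complex.exp (θ * I))) =
      ∑ m ∈ Finset.range (5 * N), (rub_g ((m : ℝ) / N) : ℂ) *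
      (Complex.exp (-(θ * I)) ^ m * (Complex.exp (θ * I) ^ (3 * N) * h (r * Complex.exp (θ * I)))) := by
    intro θ
    rw [ker_eq_sum rub_g 5 N hN0 rub_bump.hi _ (5 * N) (by push_cast; exact le_rfl), Finset.sum_mul]
    apply Finset.sum_congr rfl
    intro m _
    ring
  simp_rw [hker]
  rw [intervalIntegral.integral_finsetSum (fun m _ => (d1 m).intervalIntegrable _ _)]
  have hsplit : 5 * N = 3 * N + 2 * N := by ring
  rw [hsplit, Finset.sum_range_add]
  have hz : ∑ m ∈ Finset.range (3 * N), ∫ θ in (0:ℝ)..(2 * Real.pi), (rub_g ((m : ℝ) / N) : ℂ) *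
      (Complex.exp (-(θ * I)) ^ m * (Complex.exp (θ * I) ^ (3 * N) *
        h (r * Complex.exp (θ * I)))) = 0 := by
    apply Finset.sum_eq_zero
    intro m hm
    rw [Finset.mem_range] at hm
    rw [intervalIntegral.integral_const_mul]
    have e1 : ∀ θ : ℝ, Complex.exp (-(θ * I)) ^ m * (Complex.exp (θ * I) ^ (3 * N) *
        h (r * Complex.exp (θ * I))) = Complex.exp (θ * I) ^ (3 * N - m) *
          h (r * Complex.exp (θ * I)) := by
      intro θ
      have e2 : Complex.exp (θ * I) ^ (3 * N) =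
          Complex.exp (θ * I) ^ m * Complex.exp (θ * I) ^ (3 * N - m) := by
        rw [← pow_add]; congr 1; omega
      rw [e2]
      calc Complex.exp (-(θ * I)) ^ m * (Complex.exp (θ * I) ^ m *
            Complex.exp (θ * I) ^ (3 * N - m) * h (r * Complex.exp (θ * I)))
          = (Complex.exp (-(θ * I)) * Complex.exp (θ * I)) ^ m *
            (Complex.exp (θ * I) ^ (3 * N - m) * h (r * Complex.exp (θ * I))) := by
            rw [mul_pow]; ring
        _ = _ := by rw [hexp, one_pow, one_mul]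
    simp_rw [e1]
    rw [rub_neg hd hr0 hr1 (by omega), mul_zero]
  rw [hz, zero_add, Finset.mul_sum]
  apply Finset.sum_congr rfl
  intro k _
  rw [intervalIntegral.integral_const_mul]
  have e1 : ∀ θ : ℝ, Complex.exp (-(θ * I)) ^ (3 * N + k) * (Complex.exp (θ * I) ^ (3 * N) *
        h (r * Complex.exp (θ * I))) = Complex.exp (-(θ * I)) ^ k *
          h (r * Complex.exp (θ * I)) := by
    intro θ
    calc Complex.exp (-(θ * I)) ^ (3 * N + k) * (Complex.exp (θ * I) ^ (3 * N) *
          h (r * Complex.exp (θ * I)))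
        = (Complex.exp (-(θ * I)) * Complex.exp (θ * I)) ^ (3 * N) *
          (Complex.exp (-(θ * I)) ^ k * h (r * Complex.exp (θ * I))) := by
          rw [mul_pow, pow_add]; ring
      _ = _ := by rw [hexp, one_pow, one_mul]
  simp_rw [e1]
  rw [J15_coef hd hr0 hr1]
  have e3 : (((3 * N + k : ℕ) : ℝ) / N) = (k : ℝ) / N + 3 := by
    push_cast
    field_simp
    ring
  rw [e3, rub_g_eq (by positivity)]
  ring

/-- Task A -/
theorem ru_bound : ∃ C : ℝ, 0 < C ∧ ∀ (J : ℕ) (h : ℂ → ℂ) (B : ℝ),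
    DifferentiableOn ℂ h (Metric.ball 0 1) → (∀ z, ‖z‖ < 1 → ‖h z‖ ≤ B) →
    ‖∑ k ∈ Finset.range (2 ^ J), (ru J k : ℂ) * tc h k‖ ≤ C * B := by
  obtain ⟨C1, hC1, hker⟩ := multiplier_kernel rub_g 1 5 rub_bump 2 1 one_pos
  refine ⟨C1 + 1, by positivity, ?_⟩
  intro J h B hd hb
  have hB : 0 ≤ B := (norm_nonneg _).trans (hb 0 (by simp))
  have htc0 : tc h 0 = h 0 := by unfold tc; simp
  obtain hJ | hJ | hJ : J = 0 ∨ J = 1 ∨ 2 ≤ J := by omega
  · subst hJ
    have : ∀ k, ru 0 k = 0 := by intro k; unfold ru; simp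
    simp only [this]
    simp
    positivity
  · subst hJ
    have h0 : ru 1 0 = 1 := by unfold ru mu; simp
    have h1 : ru 1 1 = 0 := by unfold ru mu; simp
    have : ∑ k ∈ Finset.range (2 ^ 1), (ru 1 k : ℂ) * tc h k = h 0 := by
      rw [pow_one, Finset.sum_range_succ, Finset.sum_range_succ, Finset.sum_range_zero, h0, h1, htc0]
      simp
    rw [this]
    have h2 := hb 0 (by simp)
    nlinarith
  · obtain ⟨j, rfl⟩ : ∃ j, J = j + 2 := ⟨J - 2, by omega⟩
    set N : ℕ := 2 ^ j with hNdef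
    have hN : 1 ≤ N := Nat.one_le_two_pow
    have hN1 : (1 : ℝ) ≤ N := by exact_mod_cast hN
    have hN0 : (0 : ℝ) < N := by linarith
    -- bound for r < 1
    have hr : ∀ r : ℝ, 0 < r → r < 1 →
        ‖∑ k ∈ Finset.range (2 * N), (ph ((k : ℝ) / N) : ℂ) * (tc h k * (r : ℂ) ^ k)‖ ≤ C1 * B := by
      intro r hr0 hr1
      have hrep := rub_repr hd hr0 hr1 N hN
      have hbound : ‖∫ θ in (0:ℝ)..(2 * Real.pi), ker rub_g N (Complex.exp (-(θ * I))) *
          (Complex.exp (θ * I) ^ (3 * N) * h (r * Complex.exp (θ * I)))‖ ≤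
          ∫ θ in (0:ℝ)..(2 * Real.pi),
            C1 * B * (N * ((1 + N * ‖1 - Complex.exp (-(θ * I))‖) ^ 2)⁻¹) := by
        apply intervalIntegral.norm_integral_le_of_norm_le (by positivity)
        · filter_upwards with θ _
          rw [norm_mul, norm_mul, norm_pow, Complex.norm_exp_ofReal_mul_I, one_pow, one_mul]
          have hz : ‖Complex.exp (-(θ * I))‖ ≤ 1 := by
            have : -(θ * I) = ((-θ : ℝ) : ℂ) * I := by push_cast; ring
            rw [this, Complex.norm_exp_ofReal_mul_I]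
          have k1 := hker N hN1 (Complex.exp (-(θ * I))) hz
          have k2 : ‖h (r * Complex.exp (θ * I))‖ ≤ B := by
            apply hb
            have := J15_ball hr0 hr1 θ
            rwa [mem_ball_zero_iff] at this
          set D := 1 + (N : ℝ) * ‖1 - Complex.exp (-(θ * I))‖ with hD
          have hD0 : 0 < D := by positivity
          have k3 : D ^ (-((2 : ℕ) : ℝ)) = (D ^ 2)⁻¹ := by
            rw [Real.rpow_neg hD0.le, Real.rpow_natCast]
          rw [k3] at k1
          calc ‖ker rub_g N (Complex.exp (-(θ * I)))‖ * ‖h (r * Complex.exp (θ * I))‖ ≤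
              (C1 * N * (D ^ 2)⁻¹) * B :=
                mul_le_mul k1 k2 (norm_nonneg _) (by positivity)
            _ = C1 * B * (N * (D ^ 2)⁻¹) := by ring
        · exact (continuous_const.mul (J15_wcont N hN0)).intervalIntegrable _ _
      rw [hrep, intervalIntegral.integral_const_mul] at hbound
      have hI := J15_int hN0
      rw [norm_mul, norm_mul, Complex.norm_real, Real.norm_of_nonneg Real.pi_pos.le] at hbound
      have h2 : ‖(2 : ℂ)‖ = 2 := by norm_num
      rw [h2] at hbound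
      have h6 := hbound.trans (mul_le_mul_of_nonneg_left hI (by positivity : 0 ≤ C1 * B))
      have hpi := Real.pi_pos
      set S := ‖∑ k ∈ Finset.range (2 * N), (ph ((k : ℝ) / N) : ℂ) * (tc h k * (r : ℂ) ^ k)‖ with hS
      have hS0 : 0 ≤ S := norm_nonneg _
      have h8 : 0 ≤ C1 * B := by positivity
      nlinarith
    -- limit
    have hlim : Tendsto (fun r : ℝ => ‖∑ k ∈ Finset.range (2 * N), (ph ((k : ℝ) / N) : ℂ) *
        (tc h k * (r : ℂ) ^ k)‖) (𝓝[<] 1) (𝓝 ‖∑ k ∈ Finset.range (2 * N), (ph ((k : ℝ) / N) : ℂ) *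
        (tc h k * ((1 : ℝ) : ℂ) ^ k)‖) := by
      apply Tendsto.mono_left _ nhdsWithin_le_nhds
      apply Continuous.tendsto
      apply Continuous.norm
      apply continuous_finsetSum
      intro k _
      fun_prop
    have hfin : ‖∑ k ∈ Finset.range (2 * N), (ph ((k : ℝ) / N) : ℂ) *
        (tc h k * ((1 : ℝ) : ℂ) ^ k)‖ ≤ C1 * B := by
      apply le_of_tendsto hlim
      have h9 : Set.Ioo (0 : ℝ) 1 ∈ 𝓝[<] (1 : ℝ) := Ioo_mem_nhdsLT one_pos
      filter_upwards [h9] with r hr'
      exact hr r hr'.1 hr'.2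
    have hsum : ∑ k ∈ Finset.range (2 ^ (j + 2)), (ru (j + 2) k : ℂ) * tc h k =
        ∑ k ∈ Finset.range (2 * N), (ph ((k : ℝ) / N) : ℂ) * (tc h k * ((1 : ℝ) : ℂ) ^ k) := by
      have h10 : 2 ^ (j + 2) = 2 * N + 2 * N := by rw [hNdef]; ring
      rw [h10, Finset.sum_range_add]
      have h11 : ∑ k ∈ Finset.range (2 * N), (ru (j + 2) (2 * N + k) : ℂ) * tc h (2 * N + k) = 0 := by
        apply Finset.sum_eq_zero
        intro k _
        rw [rub_tel, rub_ph_zero]
        · simp
        · rw [hNdef]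
          push_cast
          rw [le_div_iff₀ (by positivity)]
          have : (0 : ℝ) ≤ k := by positivity
          linarith
      rw [h11, add_zero]
      apply Finset.sum_congr rfl
      intro k _
      rw [rub_tel, hNdef]
      push_cast
      simp
    rw [hsum]
    nlinarith

end Pool.Agent.H795R2.BA
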