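import Mathlib
import Pool.Agent.H795R2.BA.Defs
import Pool.Agent.H795R2.BA.Density
import Pool.Agent.H795R2.BA.KerL1
import Pool.Agent.H795R2.BA.RuBound
import Pool.Agent.HpBall.Series
import Pool.Agent.HpBall2.HcProps
import Pool.Agent.HopfPinch.GLib

set_option autoImplicit false

open MeasureTheory Complex Filter Topology

namespace Pool.Agent.H795R2.BA

open Pool.Agent.HpBall Pool.Agent.HpBall2

/-- continuous functions on the closed ball -/
abbrev CB (n : ℕ) := C(Metric.closedBall (0 : E n) 1, ℂ)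

/-- extension by zero -/
noncomputable def ext {n : ℕ} (f : CB n) : E n → ℂ := Function.extend Subtype.val f 0

lemma ext_apply {n : ℕ} (f : CB n) {z : E n} (hz : ‖z‖ ≤ 1) :
    ext f z = f ⟨z, mem_closedBall_zero_iff.2 hz⟩ := by
  unfold ext
  exact Subtype.val_injective.extend_apply f 0 ⟨z, mem_closedBall_zero_iff.2 hz⟩

lemma ext_out {n : ℕ} (f : CB n) {z : E n} (hz : ¬ ‖z‖ ≤ 1) : ext f z = 0 := by
  unfold ext
  rw [Function.extend_apply']
  · rfl
  · rintro ⟨a, ha⟩
    apply hz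
    rw [← ha]
    exact mem_closedBall_zero_iff.1 a.2

lemma ext_val {n : ℕ} (f : CB n) (z : Metric.closedBall (0 : E n) 1) : ext f z.1 = f z :=
  ext_apply f (mem_closedBall_zero_iff.1 z.2)

lemma ext_add {n : ℕ} (f g : CB n) (z : E n) : ext (f + g) z = ext f z + ext g z := by
  by_cases hz : ‖z‖ ≤ 1
  · rw [ext_apply _ hz, ext_apply _ hz, ext_apply _ hz]; rfl
  · rw [ext_out _ hz, ext_out _ hz, ext_out _ hz, add_zero]

lemma ext_smul {n : ℕ} (c : ℂ) (f : CB n) (z : E n) : ext (c • f) z = c * ext f z := by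
  by_cases hz : ‖z‖ ≤ 1
  · rw [ext_apply _ hz, ext_apply _ hz]; rfl
  · rw [ext_out _ hz, ext_out _ hz, mul_zero]

lemma ext_le {n : ℕ} (f : CB n) (z : E n) : ‖ext f z‖ ≤ ‖f‖ := by
  by_cases hz : ‖z‖ ≤ 1
  · rw [ext_apply _ hz]; exact f.norm_coe_le_norm _
  · rw [ext_out _ hz, norm_zero]; exact norm_nonneg _

lemma ext_cont {n : ℕ} (f : CB n) : ContinuousOn (ext f) (Metric.closedBall 0 1) := by
  rw [continuousOn_iff_continuous_domRestrict]
  have : (Metric.closedBall (0 : E n) 1).domRestrict (ext f) = f := by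
    funext z
    exact ext_val f z
  rw [this]
  exact f.continuous

/-- the ball algebra -/
noncomputable def BAlg (n : ℕ) : Submodule ℂ (CB n) where
  carrier := {f | DifferentiableOn ℂ (ext f) (Metric.ball 0 1)}
  add_mem' := by
    intro f g hf hg
    have h : ext (f + g) = fun z => ext f z + ext g z := funext fun z => ext_add f g z
    show DifferentiableOn ℂ (ext (f + g)) _
    rw [h]
    exact DifferentiableOn.add hf hg
  zero_mem' := by
    have h : ext (0 : CB n) = fun _ => 0 := by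
      funext z
      by_cases hz : ‖z‖ ≤ 1
      · rw [ext_apply _ hz]; rfl
      · rw [ext_out _ hz]
    show DifferentiableOn ℂ (ext 0) _
    rw [h]
    exact differentiableOn_const _
  smul_mem' := by
    intro c f hf
    have h : ext (c • f) = fun z => c * ext f z := funext fun z => ext_smul c f z
    show DifferentiableOn ℂ (ext (c • f)) _
    rw [h]
    exact DifferentiableOn.const_mul hf c

lemma BAlg_diff {n : ℕ} (f : BAlg n) : DifferentiableOn ℂ (ext f.1) (Metric.ball 0 1) := f.2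

theorem BAlg_closed (n : ℕ) : IsClosed ((BAlg n : Submodule ℂ (CB n)) : Set (CB n)) := by
  apply IsSeqClosed.isClosed
  intro f g hf hlim
  show DifferentiableOn ℂ (ext g) (Metric.ball 0 1)
  intro z hz
  rw [mem_ball_zero_iff] at hz
  have hR : 0 < 1 - ‖z‖ := by linarith
  have h1 : DifferentiableOn ℂ (ext g) (Metric.ball z ((1 - ‖z‖) / 2)) := by
    apply Pool.Agent.HopfPinch.differentiableOn_of_uniform_limit (f := fun m => ext (f m))
    · intro m
      apply DifferentiableOn.mono (hf m)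
      intro w hw
      rw [Metric.mem_ball, dist_eq_norm] at hw
      rw [mem_ball_zero_iff]
      have := norm_le_norm_add_norm_sub' w z
      linarith
    · rw [Metric.tendstoUniformlyOn_iff]
      intro ε hε
      filter_upwards [(Metric.tendsto_nhds.1 hlim) ε hε] with m hm w _
      rw [dist_eq_norm]
      have h2 : ext g w - ext (f m) w = ext (g - f m) w := by
        have := ext_add (g - f m) (f m) w
        rw [sub_add_cancel] at this
        rw [this]; ring
      rw [h2]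
      refine lt_of_le_of_lt (ext_le _ _) ?_
      rw [dist_comm, dist_eq_norm] at hm
      exact hm
  exact (h1.differentiableAt (Metric.isOpen_ball.mem_nhds
    (Metric.mem_ball_self (by linarith)))).differentiableWithinAt

/-- the ball algebra as a Banach space -/
def XB (n : ℕ) : Type := ↥(BAlg n)

noncomputable instance (n : ℕ) : NormedAddCommGroup (XB n) :=
  inferInstanceAs (NormedAddCommGroup ↥(BAlg n))

noncomputable instance (n : ℕ) : NormedSpace ℂ (XB n) :=
  inferInstanceAs (NormedSpace ℂ ↥(BAlg n))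

instance (n : ℕ) : CompleteSpace (XB n) :=
  (BAlg_closed n).completeSpace_coe

/-- the values (zero outside the closed ball) -/
noncomputable def vl {n : ℕ} (f : XB n) (z : E n) : ℂ := ext (Subtype.val f : CB n) z

lemma vl_diff {n : ℕ} (f : XB n) : DifferentiableOn ℂ (vl f) (Metric.ball 0 1) := f.2

lemma vl_cont {n : ℕ} (f : XB n) : ContinuousOn (vl f) (Metric.closedBall 0 1) := ext_cont _

lemma vl_le {n : ℕ} (f : XB n) (z : E n) : ‖vl f z‖ ≤ ‖f‖ := ext_le (Subtype.val f : CB n) z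

lemma vl_add {n : ℕ} (f g : XB n) (z : E n) : vl (f + g) z = vl f z + vl g z :=
  ext_add (Subtype.val f : CB n) (Subtype.val g : CB n) z

lemma vl_smul {n : ℕ} (c : ℂ) (f : XB n) (z : E n) : vl (c • f) z = c * vl f z :=
  ext_smul c (Subtype.val f : CB n) z

lemma vl_zero {n : ℕ} (z : E n) : vl (0 : XB n) z = 0 := by
  have := vl_smul (0 : ℂ) (0 : XB n) z
  rwa [zero_smul, zero_mul] at this

lemma vl_sub {n : ℕ} (f g : XB n) (z : E n) : vl (f - g) z = vl f z - vl g z := by
  have := vl_add (f - g) g z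
  rw [sub_add_cancel] at this
  rw [this]; ring

lemma vl_sum {n : ℕ} {ι : Type} (s : Finset ι) (f : ι → XB n) (z : E n) :
    vl (∑ i ∈ s, f i) z = ∑ i ∈ s, vl (f i) z := by
  classical
  induction s using Finset.induction_on with
  | empty => rw [Finset.sum_empty, Finset.sum_empty, vl_zero]
  | insert a s ha ih => rw [Finset.sum_insert ha, Finset.sum_insert ha, vl_add, ih]

lemma norm_le_X {n : ℕ} (f : XB n) {B : ℝ} (hB : 0 ≤ B)
    (h : ∀ z : E n, ‖z‖ ≤ 1 → ‖vl f z‖ ≤ B) : ‖f‖ ≤ B := by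
  show ‖(Subtype.val f : CB n)‖ ≤ B
  rw [ContinuousMap.norm_le _ hB]
  intro z
  rw [← ext_val]
  exact h _ (mem_closedBall_zero_iff.1 z.2)

lemma X_eq {n : ℕ} {f g : XB n} (h : ∀ z : E n, ‖z‖ ≤ 1 → vl f z = vl g z) : f = g := by
  apply Subtype.ext
  ext z
  rw [← ext_val, ← ext_val]
  exact h _ (mem_closedBall_zero_iff.1 z.2)

/-- bundling of a function of the ball algebra -/
theorem exists_X {n : ℕ} (P : E n → ℂ) (hc : ContinuousOn P (Metric.closedBall 0 1))
    (hP : DifferentiableOn ℂ P (Metric.ball 0 1)) :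
    ∃ f : XB n, ∀ z : E n, ‖z‖ ≤ 1 → vl f z = P z := by
  refine ⟨⟨⟨fun z => P z.1, ?_⟩, ?_⟩, ?_⟩
  · exact continuousOn_iff_continuous_domRestrict.1 hc
  · show DifferentiableOn ℂ (ext _) (Metric.ball 0 1)
    apply hP.congr
    intro z hz
    rw [mem_ball_zero_iff] at hz
    rw [ext_apply _ hz.le]
    rfl
  · intro z hz
    show ext _ z = P z
    rw [ext_apply _ hz]
    rfl

/-- bounded operators on the ball algebra given by a formula -/
theorem exists_op {n : ℕ} (T : XB n → E n → ℂ) (C : ℝ) (hC : 0 ≤ C)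
    (hd : ∀ f, ContinuousOn (T f) (Metric.closedBall 0 1) ∧ DifferentiableOn ℂ (T f) (Metric.ball 0 1))
    (hadd : ∀ f g z, ‖z‖ ≤ 1 → T (f + g) z = T f z + T g z)
    (hsmul : ∀ (c : ℂ) f z, ‖z‖ ≤ 1 → T (c • f) z = c * T f z)
    (hb : ∀ f z, ‖z‖ ≤ 1 → ‖T f z‖ ≤ C * ‖f‖) :
    ∃ A : XB n →L[ℂ] XB n, ‖A‖ ≤ C ∧ ∀ f z, ‖z‖ ≤ 1 → vl (A f) z = T f z := by
  choose A hA using fun f => exists_X (T f) (hd f).1 (hd f).2
  refine ⟨LinearMap.mkContinuous
    { toFun := A
      map_add' := ?_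
      map_smul' := ?_ } C ?_, ?_, ?_⟩
  · intro f g
    apply X_eq
    intro z hz
    rw [vl_add, hA _ z hz, hA _ z hz, hA _ z hz, hadd f g z hz]
  · intro c f
    apply X_eq
    intro z hz
    rw [RingHom.id_apply, vl_smul, hA _ z hz, hA _ z hz, hsmul c f z hz]
  · intro f
    apply norm_le_X _ (by positivity)
    intro z hz
    show ‖vl (A f) z‖ ≤ _
    rw [hA _ z hz]
    exact hb f z hz
  · exact LinearMap.mkContinuous_norm_le _ hC _
  · intro f z hz
    exact hA f z hz

/-- evaluation at a point -/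
theorem exists_ev {n : ℕ} (z : E n) : ∃ A : XB n →L[ℂ] ℂ, ‖A‖ ≤ 1 ∧ ∀ f, A f = vl f z := by
  refine ⟨LinearMap.mkContinuous
    { toFun := fun f => vl f z
      map_add' := fun f g => vl_add f g z
      map_smul' := fun c f => vl_smul c f z } 1 ?_, ?_, ?_⟩
  · intro f
    rw [one_mul]
    exact vl_le f z
  · exact LinearMap.mkContinuous_norm_le _ zero_le_one _
  · intro f
    rfl

lemma hc_bound {n : ℕ} {f : E n → ℂ} (hd : DifferentiableOn ℂ f (Metric.ball 0 1)) {B : ℝ}
    (hB : ∀ z : E n, ‖z‖ < 1 → ‖f z‖ ≤ B) {z : E n} (hz : ‖z‖ ≤ 1) (k : ℕ) : ‖hc f k z‖ ≤ B := by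
  have h1 : Tendsto (fun s : ℝ => ‖hc f k z‖ * s ^ k) (𝓝[<] 1) (𝓝 (‖hc f k z‖ * 1 ^ k)) := by
    apply Tendsto.mono_left _ nhdsWithin_le_nhds
    exact (continuous_const.mul (continuous_pow k)).tendsto 1
  rw [one_pow, mul_one] at h1
  apply le_of_tendsto h1
  have h2 : Set.Ioo (0 : ℝ) 1 ∈ 𝓝[<] (1 : ℝ) := Ioo_mem_nhdsLT (by norm_num)
  filter_upwards [h2] with s hs
  exact F_cauchy hd hB hz hs.1 hs.2 k

lemma slice_diff' {n : ℕ} {f : E n → ℂ} (hd : DifferentiableOn ℂ f (Metric.ball 0 1)) {z : E n}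
    (hz : ‖z‖ ≤ 1) : DifferentiableOn ℂ (fun w : ℂ => f (w • z)) (Metric.ball 0 1) := by
  apply hd.comp (f := fun w : ℂ => w • z)
  · exact (differentiable_id.smul_const z).differentiableOn
  · intro w hw
    rw [mem_ball_zero_iff] at hw ⊢
    rw [norm_smul]
    calc ‖w‖ * ‖z‖ ≤ ‖w‖ * 1 := mul_le_mul_of_nonneg_left hz (norm_nonneg _)
      _ < 1 := by rw [mul_one]; exact hw

lemma hc_add {n : ℕ} (f g : XB n) (k : ℕ) {z : E n} (hz : ‖z‖ ≤ 1) :
    hc (vl (f + g)) k z = hc (vl f) k z + hc (vl g) k z := by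
  have h := tc_lin (slice_diff' (vl_diff f) hz) (slice_diff' (vl_diff g) hz) 1 1 k
  simp only [one_mul] at h
  unfold hc
  rw [← h]
  congr 1
  funext w
  exact vl_add f g _

lemma hc_smul {n : ℕ} (c : ℂ) (f : XB n) (k : ℕ) {z : E n} (hz : ‖z‖ ≤ 1) :
    hc (vl (c • f)) k z = c * hc (vl f) k z := by
  have h := tc_lin (slice_diff' (vl_diff f) hz) (slice_diff' (vl_diff f) hz) c 0 k
  simp only [zero_mul, add_zero] at h
  unfold hc
  rw [← h]
  congr 1
  funext w
  exact vl_smul c f _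

/-- the homogeneous projections -/
theorem exists_P (n : ℕ) : ∃ P : ℕ → (XB n →L[ℂ] XB n), (∀ k, ‖P k‖ ≤ 1) ∧
    ∀ k f (z : E n), ‖z‖ ≤ 1 → vl (P k f) z = hc (vl f) k z := by
  have h : ∀ k, ∃ A : XB n →L[ℂ] XB n, ‖A‖ ≤ 1 ∧ ∀ f z, ‖z‖ ≤ 1 → vl (A f) z = hc (vl f) k z := by
    intro k
    apply exists_op (fun f => hc (vl f) k) 1 zero_le_one
    · intro f
      have h1 := (hc_props n _ (vl_diff f)).1 k
      exact ⟨h1.continuous.continuousOn, h1.differentiableOn⟩
    · intro f g z hz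
      exact hc_add f g k hz
    · intro c f z hz
      exact hc_smul c f k hz
    · intro f z hz
      rw [one_mul]
      exact hc_bound (vl_diff f) (fun z _ => vl_le f z) hz k
  choose P hP using h
  exact ⟨P, fun k => (hP k).1, fun k => (hP k).2⟩

end Pool.Agent.H795R2.BA
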