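import Mathlib
import Pool.Agent.H795R2.BA.Alg
import Pool.Agent.HpBall2.Model

set_option autoImplicit false

open MeasureTheory Complex Filter Topology

namespace Pool.Agent.H795R2.BA

open Pool.Agent.HpBall Pool.Agent.HpBall2

/-! multipliers -/

lemma mu_high {j k : ℕ} (h : 2 ^ j ≤ k) : mu j k = 0 := by
  unfold mu
  split_ifs with hj hk
  · subst hj; subst hk; simp at h
  · rfl
  · apply C_bt_bump.hi
    rw [le_div_iff₀ (by positivity)]
    have h1 : (2 : ℝ) * 2 ^ (j - 1) = ((2 ^ j : ℕ) : ℝ) := by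
      push_cast
      rw [← pow_succ']
      congr 1; omega
    rw [h1]
    exact_mod_cast h

lemma mu_low {j k : ℕ} (hj : 1 ≤ j) (h : 4 * k ≤ 2 ^ j) : mu j k = 0 := by
  unfold mu
  rw [if_neg (by omega)]
  apply C_bt_bump.lo
  rw [div_le_iff₀ (by positivity)]
  have h1 : (1 : ℝ) / 2 * 2 ^ (j - 1) = ((2 ^ j : ℕ) : ℝ) / 4 := by
    push_cast
    obtain ⟨i, rfl⟩ : ∃ i, j = i + 1 := ⟨j - 1, by omega⟩
    rw [Nat.add_sub_cancel, pow_succ]
    ring
  rw [h1, le_div_iff₀ (by norm_num)]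
  have : ((4 * k : ℕ) : ℝ) ≤ ((2 ^ j : ℕ) : ℝ) := by exact_mod_cast h
  push_cast at this ⊢
  linarith

lemma mu_mul' {i j k : ℕ} (h : i + 2 ≤ j) : mu i k * mu j k = 0 := by
  rcases Nat.lt_or_ge k (2 ^ i) with h1 | h1
  · rw [mu_low (j := j) (by omega), mul_zero]
    have h2 : 2 ^ (i + 2) ≤ 2 ^ j := Nat.pow_le_pow_right (by norm_num) h
    rw [pow_add] at h2
    omega
  · rw [mu_high h1, zero_mul]

lemma mu_mul {i j k : ℕ} (h : i + 2 ≤ j ∨ j + 2 ≤ i) : mu i k * mu j k = 0 := by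
  rcases h with h | h
  · exact mu_mul' h
  · rw [mul_comm]; exact mu_mul' h

lemma ru_high {J k : ℕ} (h : 2 ^ J ≤ k) : ru J k = 0 := by
  unfold ru
  apply Finset.sum_eq_zero
  intro j hj
  rw [Finset.mem_range] at hj
  apply mu_high
  exact (Nat.pow_le_pow_right (by norm_num) hj.le).trans h

lemma ru_one {J k : ℕ} (h : k ≤ 2 ^ J) : ru (J + 2) k = 1 := by
  rw [rub_tel]
  apply C_ph_one
  rw [div_le_one (by positivity)]
  exact_mod_cast h

/-- the wide multiplier -/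
noncomputable def du (j k : ℕ) : ℝ := ru (j + 2) k - ru (j - 1) k

lemma du_eq (j k : ℕ) : du j k = ∑ i ∈ Finset.Ico (j - 1) (j + 2), mu i k := by
  unfold du ru
  rw [Finset.sum_Ico_eq_sub _ (by omega)]

lemma du_mul_far {j i k : ℕ} (h : i + 3 ≤ j ∨ j + 3 ≤ i) : du j k * mu i k = 0 := by
  rw [du_eq, Finset.sum_mul]
  apply Finset.sum_eq_zero
  intro l hl
  rw [Finset.mem_Ico] at hl
  apply mu_mul
  omega

lemma du_mul_self (j k : ℕ) : du j k * mu j k = mu j k := by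
  obtain ⟨J, hJ1, hJ2⟩ : ∃ J, j + 2 ≤ J + 2 ∧ k ≤ 2 ^ J := by
    refine ⟨j + k, by omega, ?_⟩
    have h1 : k < 2 ^ k := Nat.lt_two_pow_self
    exact h1.le.trans (Nat.pow_le_pow_right (by norm_num) (by omega))
  have h1 : ru (J + 2) k * mu j k = mu j k := by rw [ru_one hJ2, one_mul]
  conv_rhs => rw [← h1]
  rw [du_eq]
  unfold ru
  rw [Finset.sum_mul, Finset.sum_mul]
  apply Finset.sum_subset
  · intro l hl
    rw [Finset.mem_Ico] at hl
    rw [Finset.mem_range]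
    omega
  · intro l _ hl
    rw [Finset.mem_Ico] at hl
    apply mu_mul
    omega

/-! homogeneous functions -/

lemma hc_hom {n : ℕ} {Q : E n → ℂ} {l k : ℕ} {z : E n}
    (hQ : ∀ w : ℂ, ‖w‖ < 1 → Q (w • z) = w ^ l * Q z) : hc Q k z = if k = l then Q z else 0 := by
  have h1 : (fun w : ℂ => Q (w • z)) =ᶠ[𝓝 0] fun w => w ^ l * Q z := by
    filter_upwards [Metric.ball_mem_nhds (0 : ℂ) one_pos] with w hw
    rw [mem_ball_zero_iff] at hw
    exact hQ w hw
  have h2 : hc Q k z = tc (fun w => w ^ l * Q z) k := by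
    unfold hc tc
    rw [h1.iteratedDeriv_eq k]
  rw [h2, B13_tc_mono]

section Proj

variable {n : ℕ} {P : ℕ → (XB n →L[ℂ] XB n)}
  (hP : ∀ k f (z : E n), ‖z‖ ≤ 1 → vl (P k f) z = hc (vl f) k z)

include hP in
lemma P_hom (k : ℕ) (f : XB n) {z : E n} (hz : ‖z‖ ≤ 1) {w : ℂ} (hw : ‖w‖ < 1) :
    vl (P k f) (w • z) = w ^ k * vl (P k f) z := by
  have h1 : ‖w • z‖ ≤ 1 := by
    rw [norm_smul]
    exact mul_le_one₀ hw.le (norm_nonneg _) hz
  rw [hP _ _ _ h1, hP _ _ _ hz]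
  exact (hc_props n _ (vl_diff f)).2.1 k w z

include hP in
lemma P_mul (k l : ℕ) (f : XB n) : P k (P l f) = if k = l then P l f else 0 := by
  apply X_eq
  intro z hz
  rw [hP _ _ _ hz, hc_hom (fun w hw => P_hom hP l f hz hw)]
  split_ifs with h
  · rfl
  · rw [vl_zero]

/-- the sum of the blocks below J -/
noncomputable def RR (P : ℕ → (XB n →L[ℂ] XB n)) (J : ℕ) : XB n →L[ℂ] XB n :=
  ∑ k ∈ Finset.range (2 ^ J), (ru J k : ℂ) • P k

lemma RR_apply (J : ℕ) (f : XB n) :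
    RR P J f = ∑ k ∈ Finset.range (2 ^ J), (ru J k : ℂ) • P k f := by
  unfold RR
  simp

include hP in
theorem RR_bound : ∃ C : ℝ, 0 < C ∧ ∀ J, ‖RR P J‖ ≤ C := by
  obtain ⟨C, hC, h⟩ := ru_bound
  refine ⟨C, hC, fun J => ContinuousLinearMap.opNorm_le_bound _ hC.le fun f => ?_⟩
  apply norm_le_X _ (by positivity)
  intro z hz
  have h1 := h J (fun w => vl f (w • z)) ‖f‖ (slice_diff' (vl_diff f) hz) (fun w _ => vl_le f _)
  rw [RR_apply, vl_sum]
  simp only [vl_smul]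
  have h2 : ∀ k ∈ Finset.range (2 ^ J), (ru J k : ℂ) * vl (P k f) z =
      (ru J k : ℂ) * tc (fun w => vl f (w • z)) k := by
    intro k _
    rw [hP _ _ _ hz]
    rfl
  rw [Finset.sum_congr rfl h2]
  exact h1

include hP in
lemma RR_P {J l : ℕ} (h : l ≤ 2 ^ J) (f : XB n) : RR P (J + 2) (P l f) = P l f := by
  rw [RR_apply]
  simp only [P_mul hP, smul_ite, smul_zero]
  rw [Finset.sum_ite_eq']
  rw [if_pos, ru_one h, Complex.ofReal_one, one_smul]
  rw [Finset.mem_range]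
  have : 2 ^ J < 2 ^ (J + 2) := Nat.pow_lt_pow_right (by norm_num) (by omega)
  omega

include hP in
theorem dense_P (f : XB n) (ε : ℝ) (hε : 0 < ε) : ∃ (K : ℕ) (t : ℕ → ℝ),
    ‖f - ∑ k ∈ Finset.range K, (t k : ℂ) • P k f‖ ≤ ε := by
  obtain ⟨K, t, h⟩ := density n (vl f) (vl_cont f) (vl_diff f) ε hε
  refine ⟨K, t, norm_le_X _ hε.le fun z hz => ?_⟩
  rw [vl_sub, vl_sum]
  simp only [vl_smul]
  have h2 : ∀ k ∈ Finset.range K, (t k : ℂ) * vl (P k f) z = (t k : ℂ) * hc (vl f) k z := by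
    intro k _
    rw [hP _ _ _ hz]
  rw [Finset.sum_congr rfl h2]
  exact h z hz

include hP in
theorem RR_tendsto (f : XB n) : Tendsto (fun J => RR P J f) atTop (𝓝 f) := by
  obtain ⟨C, hC, hb⟩ := RR_bound hP
  rw [Metric.tendsto_atTop]
  intro ε hε
  obtain ⟨K, t, h⟩ := dense_P hP f (ε / (2 * (C + 1))) (by positivity)
  refine ⟨K + 2, fun J hJ => ?_⟩
  set S := ∑ k ∈ Finset.range K, (t k : ℂ) • P k f with hS
  have h1 : RR P J S = S := by
    rw [hS, map_sum]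
    refine Finset.sum_congr rfl fun k hk => ?_
    rw [Finset.mem_range] at hk
    obtain ⟨i, rfl⟩ : ∃ i, J = i + 2 := ⟨J - 2, by omega⟩
    rw [map_smul, RR_P hP]
    have h2 : i < 2 ^ i := Nat.lt_two_pow_self
    omega
  have h2 : RR P J f - f = RR P J (f - S) - (f - S) := by
    rw [map_sub, h1]; abel
  rw [dist_eq_norm, h2]
  calc ‖RR P J (f - S) - (f - S)‖ ≤ ‖RR P J (f - S)‖ + ‖f - S‖ := norm_sub_le _ _
    _ ≤ C * ‖f - S‖ + ‖f - S‖ := add_le_add ((RR P J).le_of_opNorm_le (hb J) _) le_rfl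
    _ = (C + 1) * ‖f - S‖ := by ring
    _ ≤ (C + 1) * (ε / (2 * (C + 1))) := mul_le_mul_of_nonneg_left h (by positivity)
    _ = ε / 2 := by field_simp
    _ < ε := by linarith

include hP in
theorem P_tendsto (hP1 : ∀ k, ‖P k‖ ≤ 1) (f : XB n) : Tendsto (fun k => P k f) atTop (𝓝 0) := by
  rw [Metric.tendsto_atTop]
  intro ε hε
  obtain ⟨K, t, h⟩ := dense_P hP f (ε / 2) (by positivity)
  refine ⟨K, fun k hk => ?_⟩
  set S := ∑ k ∈ Finset.range K, (t k : ℂ) • P k f with hS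
  have h1 : P k S = 0 := by
    rw [hS, map_sum]
    apply Finset.sum_eq_zero
    intro l hl
    rw [Finset.mem_range] at hl
    rw [map_smul, P_mul hP, if_neg (by omega), smul_zero]
  have h2 : P k f = P k (f - S) := by rw [map_sub, h1, sub_zero]
  rw [dist_zero_right, h2]
  calc ‖P k (f - S)‖ ≤ 1 * ‖f - S‖ := (P k).le_of_opNorm_le (hP1 k) _
    _ ≤ ε / 2 := by rw [one_mul]; exact h
    _ < ε := by linarith

/-- the blocks -/
noncomputable def AA (P : ℕ → (XB n →L[ℂ] XB n)) (j : ℕ) : XB n →L[ℂ] XB n :=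
  ∑ k ∈ Finset.range (2 ^ j + 1), (mu j k : ℂ) • P k

lemma AA_apply (j : ℕ) (f : XB n) :
    AA P j f = ∑ k ∈ Finset.range (2 ^ j + 1), (mu j k : ℂ) • P k f := by
  unfold AA
  simp

/-- sums of multipliers over longer ranges -/
lemma AA_long {j K : ℕ} (h : 2 ^ j ≤ K) (f : XB n) :
    AA P j f = ∑ k ∈ Finset.range K, (mu j k : ℂ) • P k f := by
  rw [AA_apply]
  have h1 : ∑ k ∈ Finset.range (2 ^ j), (mu j k : ℂ) • P k f =
      ∑ k ∈ Finset.range K, (mu j k : ℂ) • P k f := by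
    apply Finset.sum_subset
    · intro l hl
      rw [Finset.mem_range] at hl ⊢
      omega
    · intro l _ hl
      rw [Finset.mem_range, not_lt] at hl
      rw [mu_high hl, Complex.ofReal_zero, zero_smul]
  rw [Finset.sum_range_succ, h1, mu_high le_rfl, Complex.ofReal_zero, zero_smul, add_zero]

lemma RR_eq (J : ℕ) (f : XB n) : RR P J f = ∑ j ∈ Finset.range J, AA P j f := by
  rw [RR_apply]
  have h1 : ∀ j ∈ Finset.range J, AA P j f =
      ∑ k ∈ Finset.range (2 ^ J), (mu j k : ℂ) • P k f := by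
    intro j hj
    rw [Finset.mem_range] at hj
    exact AA_long (Nat.pow_le_pow_right (by norm_num) hj.le) f
  rw [Finset.sum_congr rfl h1, Finset.sum_comm]
  refine Finset.sum_congr rfl fun k _ => ?_
  unfold ru
  rw [Complex.ofReal_sum, Finset.sum_smul]

/-- the wide blocks -/
noncomputable def DD (P : ℕ → (XB n →L[ℂ] XB n)) (j : ℕ) : XB n →L[ℂ] XB n :=
  RR P (j + 2) - RR P (j - 1)

lemma DD_apply (j : ℕ) (f : XB n) :
    DD P j f = ∑ k ∈ Finset.range (2 ^ (j + 2)), (du j k : ℂ) • P k f := by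
  unfold DD
  rw [ContinuousLinearMap.sub_apply, RR_apply, RR_apply]
  have h1 : ∑ k ∈ Finset.range (2 ^ (j - 1)), (ru (j - 1) k : ℂ) • P k f =
      ∑ k ∈ Finset.range (2 ^ (j + 2)), (ru (j - 1) k : ℂ) • P k f := by
    apply Finset.sum_subset
    · intro l hl
      rw [Finset.mem_range] at hl ⊢
      exact lt_of_lt_of_le hl (Nat.pow_le_pow_right (by norm_num) (by omega))
    · intro l _ hl
      rw [Finset.mem_range, not_lt] at hl
      rw [ru_high hl, Complex.ofReal_zero, zero_smul]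
  rw [h1, ← Finset.sum_sub_distrib]
  refine Finset.sum_congr rfl fun k _ => ?_
  unfold du
  rw [Complex.ofReal_sub, sub_smul]

end Proj

end Pool.Agent.H795R2.BA
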