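import Mathlib
import Pool.Agent.H795R2.BA.Defs
import Pool.Agent.HpBall.Sphere
import Pool.Agent.HpBall.Growth

set_option autoImplicit false

open MeasureTheory Complex Filter Topology

namespace Pool.Agent.H795R2.BA

open Pool.Agent.HpBall Pool.Agent.HpBall2

/-- the convex hull of a compact set in finite dimension is the image of a compact set -/
lemma quad_hull {V : Type} [NormedAddCommGroup V] [NormedSpace ℝ V] [FiniteDimensional ℝ V]
    {K : Set V} (hne : K.Nonempty) :
    convexHull ℝ K = (fun q : (Fin (Module.finrank ℝ V + 1) → ℝ) ×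
      (Fin (Module.finrank ℝ V + 1) → V) => ∑ i, q.1 i • q.2 i) ''
        (stdSimplex ℝ (Fin (Module.finrank ℝ V + 1)) ×ˢ
          Set.univ.pi (fun _ : Fin (Module.finrank ℝ V + 1) => K)) := by
  apply Set.Subset.antisymm
  · intro x hx
    obtain ⟨ι, hι, z, w, hz, hai, hw, hw1, hwx⟩ := eq_pos_convex_span_of_mem_convexHull hx
    have hcard : Fintype.card ι ≤ Module.finrank ℝ V + 1 := by
      have h := hai.card_le_finrank_succ
      have h2 := Submodule.finrank_le (vectorSpan ℝ (Set.range z))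
      omega
    obtain ⟨e⟩ : Nonempty (ι ↪ Fin (Module.finrank ℝ V + 1)) :=
      Function.Embedding.nonempty_of_card_le (by simpa using hcard)
    obtain ⟨z0, hz0⟩ := hne
    refine ⟨(Function.extend e w 0, Function.extend e z (fun _ => z0)), ⟨⟨?_, ?_⟩, ?_⟩, ?_⟩
    · intro j
      by_cases hj : ∃ a, e a = j
      · obtain ⟨a, rfl⟩ := hj
        simp only [e.injective.extend_apply]
        exact (hw a).le
      · simp only [Function.extend_apply' _ _ _ hj]
        simp
    · rw [← hw1]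
      symm
      refine Fintype.sum_of_injective e e.injective _ _ ?_ ?_
      · intro j hj
        have hj' : ¬ ∃ a, e a = j := by
          rintro ⟨a, ha⟩
          exact hj ⟨a, ha⟩
        simp [Function.extend_apply' _ _ _ hj']
      · intro a
        simp [e.injective.extend_apply]
    · intro j _
      by_cases hj : ∃ a, e a = j
      · obtain ⟨a, rfl⟩ := hj
        simp only [e.injective.extend_apply]
        exact hz ⟨a, rfl⟩
      · simp only [Function.extend_apply' _ _ _ hj]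
        exact hz0
    · rw [← hwx]
      symm
      refine Fintype.sum_of_injective e e.injective _ _ ?_ ?_
      · intro j hj
        have hj' : ¬ ∃ a, e a = j := by
          rintro ⟨a, ha⟩
          exact hj ⟨a, ha⟩
        simp [Function.extend_apply' _ _ _ hj']
      · intro a
        simp [e.injective.extend_apply]
  · rintro x ⟨⟨w, z⟩, ⟨hw, hz⟩, rfl⟩
    refine (convex_convexHull ℝ K).sum_mem (fun i _ => hw.1 i) hw.2 (fun i _ => ?_)
    exact subset_convexHull ℝ K (hz i (Set.mem_univ i))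

lemma quad_closed {V : Type} [NormedAddCommGroup V] [NormedSpace ℝ V] [FiniteDimensional ℝ V]
    {K : Set V} (hne : K.Nonempty) (hK : IsCompact K) : IsCompact (convexHull ℝ K) := by
  rw [quad_hull hne]
  refine ((isCompact_stdSimplex ℝ _).prod (isCompact_univ_pi fun _ => hK)).image ?_
  fun_prop

lemma quad_mass_pos {n : ℕ} : 0 < (sig n).real Set.univ := by
  rw [Measure.real]
  exact ENNReal.toReal_pos sig_univ_pos.ne' (measure_ne_top _ _)

/-- exact positive quadrature for finitely many continuous functions -/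
lemma quad_fin {n : ℕ} (hn : 1 ≤ n) {ι : Type} [Fintype ι] (F : ι → E n → ℂ)
    (hF : ∀ i, Continuous (F i)) : ∃ (m : ℕ) (ξ : ℕ → E n) (w : ℕ → ℝ), (∀ i, ‖ξ i‖ = 1) ∧
      (∀ i, 0 ≤ w i) ∧ ∀ j, ∑ i ∈ Finset.range m, (w i : ℂ) * F j (ξ i) =
        ∫ ζ, F j ζ ∂(sig n) := by
  classical
  have : Nonempty (Fin n) := ⟨⟨0, hn⟩⟩
  have : Nontrivial (E n) := inferInstance
  obtain ⟨u, hu⟩ : ∃ u : E n, ‖u‖ = 1 := by
    have := (NormedSpace.sphere_nonempty (x := (0 : E n)) (r := 1)).2 zero_le_one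
    obtain ⟨u, hu⟩ := this
    exact ⟨u, by simpa using hu⟩
  set Φ : E n → (ι → ℂ) := fun ζ j => F j ζ with hΦ
  have hΦc : Continuous Φ := continuous_pi fun j => hF j
  set K : Set (ι → ℂ) := Φ '' Metric.sphere (0 : E n) 1 with hKdef
  have hKne : K.Nonempty := ⟨Φ u, u, by simpa using hu, rfl⟩
  have hKc : IsCompact K := (isCompact_sphere _ _).image hΦc
  have hae : ∀ᵐ ζ ∂(sig n), Φ ζ ∈ convexHull ℝ K := by
    filter_upwards [sig_ae_norm hn] with ζ hζ
    exact subset_convexHull ℝ K ⟨ζ, by simpa using hζ, rfl⟩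
  have hint : Integrable Φ (sig n) := by
    obtain ⟨B, hB⟩ := hKc.isBounded.exists_norm_le
    refine Integrable.mono' (integrable_const B) hΦc.aestronglyMeasurable ?_
    filter_upwards [sig_ae_norm hn] with ζ hζ
    exact hB _ ⟨ζ, by simpa using hζ, rfl⟩
  have : NeZero (sig n) := ⟨by
    intro h
    have h1 := sig_univ_pos (n := n)
    rw [h] at h1
    simp at h1⟩
  have hmem : (⨍ ζ, Φ ζ ∂(sig n)) ∈ convexHull ℝ K :=
    (convex_convexHull ℝ K).average_mem (quad_closed hKne hKc).isClosed hae hint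
  rw [quad_hull hKne] at hmem
  obtain ⟨⟨w, z⟩, ⟨hw, hz⟩, hsum⟩ := hmem
  simp only at hw hz hsum
  have hz' : ∀ i, ∃ ξ : E n, ‖ξ‖ = 1 ∧ Φ ξ = z i := by
    intro i
    obtain ⟨ξ, hξ, h⟩ := hz i (Set.mem_univ i)
    exact ⟨ξ, by simpa using hξ, h⟩
  choose ξ hξ1 hξ2 using hz'
  generalize Module.finrank ℝ (ι → ℂ) + 1 = N at w z hw hz hsum ξ hξ1 hξ2
  set M : ℝ := (sig n).real Set.univ with hM
  refine ⟨N, fun i => if h : i < N then ξ ⟨i, h⟩ else u, fun i => if h : i < N then
    M * w ⟨i, h⟩ else 0, ?_, ?_, ?_⟩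
  · intro i
    by_cases h : i < N
    · simp [h, hξ1]
    · simp [h, hu]
  · intro i
    by_cases h : i < N
    · simp only [h, dif_pos]
      exact mul_nonneg measureReal_nonneg (hw.1 _)
    · simp [h]
  · intro j
    have h1 : ∫ ζ, Φ ζ ∂(sig n) = M • ∑ i, w i • z i := by
      rw [hsum, hM, measure_smul_average]
    have h2 : ∫ ζ, F j ζ ∂(sig n) = (∫ ζ, Φ ζ ∂(sig n)) j := by
      have := ContinuousLinearMap.integral_comp_comm (ContinuousLinearMap.proj (R := ℝ) (φ := fun _ : ι => ℂ) j) hint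
      simpa using this
    rw [h2, h1, Finset.sum_range]
    simp only [Pi.smul_apply, Finset.sum_apply, Finset.smul_sum]
    refine Finset.sum_congr rfl fun i _ => ?_
    rw [← hξ2 i]
    simp only [Fin.is_lt, dif_pos, Fin.eta, hΦ, Complex.real_smul]
    push_cast
    ring

/-- Task D -/
theorem quadrature (n : ℕ) (hn : 1 ≤ n) (D : ℕ) (G : E n → E n → ℂ)
    (hG : Continuous (fun q : E n × E n => G q.1 q.2)) (C : ℝ)
    (hC : ∀ z : E n, ‖z‖ ≤ 1 → ∫ ζ, ‖G ζ z‖ ∂(sig n) ≤ C) :
    ∃ (m : ℕ) (ξ : ℕ → E n) (w : ℕ → ℝ), (∀ i, ‖ξ i‖ = 1) ∧ (∀ i, 0 ≤ w i) ∧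
      (∀ k l : ℕ, k ≤ D → l ≤ D → ∀ η x : E n,
        ∑ i ∈ Finset.range m, (w i : ℂ) * ((inner ℂ η (ξ i) : ℂ) ^ k * (inner ℂ (ξ i) x : ℂ) ^ l) =
          ∫ ζ, (inner ℂ η ζ : ℂ) ^ k * (inner ℂ ζ x : ℂ) ^ l ∂(sig n)) ∧
      (∀ z : E n, ‖z‖ ≤ 1 → ∑ i ∈ Finset.range m, w i * ‖G (ξ i) z‖ ≤ C + 1) := by
  classical
  set M : ℝ := (sig n).real Set.univ with hM
  have hM0 : 0 < M := quad_mass_pos
  set ε : ℝ := 1 / (M + 1) with hε
  have hε0 : 0 < ε := by positivity
  -- the net
  have hcomp : IsCompact (Metric.sphere (0 : E n) 1 ×ˢ Metric.closedBall (0 : E n) 1) :=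
    (isCompact_sphere _ _).prod (isCompact_closedBall _ _)
  have huc := hcomp.uniformContinuousOn_of_continuous hG.continuousOn
  rw [Metric.uniformContinuousOn_iff] at huc
  obtain ⟨δ, hδ0, hδ⟩ := huc ε hε0
  obtain ⟨t, hts, htf, htc⟩ := (isCompact_closedBall (0 : E n) 1).finite_cover_balls hδ0
  have : Fintype t := htf.fintype
  -- the quadrature
  obtain ⟨m, ξ, w, hξ, hw, hex⟩ := quad_fin hn
    (ι := (Σ q : Fin (D + 1) × Fin (D + 1), (Fin q.1 → Fin n) × (Fin q.2 → Fin n)) ⊕ t)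
    (fun i ζ => match i with
      | Sum.inl ⟨_, s⟩ => (∏ a, ζ (s.1 a)) * (∏ b, (starRingEnd ℂ) (ζ (s.2 b)))
      | Sum.inr z => ((‖G ζ z‖ : ℝ) : ℂ))
    (by
      rintro (⟨q, s⟩ | z)
      · refine Continuous.mul (continuous_finsetProd _ fun a _ => ?_)
          (continuous_finsetProd _ fun b _ => ?_)
        · fun_prop
        · exact continuous_conj.comp (by fun_prop)
      · refine Complex.continuous_ofReal.comp (Continuous.norm ?_)
        exact hG.comp (by fun_prop : Continuous fun ζ : E n => (ζ, (z : E n))))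
  refine ⟨m, ξ, w, hξ, hw, ?_, ?_⟩
  · intro k l hk hl η x
    -- expansion
    have hexp : ∀ ζ : E n, (inner ℂ η ζ : ℂ) ^ k * (inner ℂ ζ x : ℂ) ^ l =
        ∑ s : (Fin k → Fin n) × (Fin l → Fin n),
          ((∏ a, (starRingEnd ℂ) (η (s.1 a))) * (∏ b, x (s.2 b))) *
            ((∏ a, ζ (s.1 a)) * (∏ b, (starRingEnd ℂ) (ζ (s.2 b)))) := by
      intro ζ
      rw [Fintype.sum_prod_type]
      have h1 : (inner ℂ η ζ : ℂ) = ∑ i, (starRingEnd ℂ) (η i) * ζ i := by
        rw [PiLp.inner_apply]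
        refine Finset.sum_congr rfl fun i _ => ?_
        simp [mul_comm]
      have h2 : (inner ℂ ζ x : ℂ) = ∑ i, x i * (starRingEnd ℂ) (ζ i) := by
        rw [PiLp.inner_apply]
        refine Finset.sum_congr rfl fun i _ => ?_
        simp
      rw [h1, h2, Fintype.sum_pow, Fintype.sum_pow, Finset.sum_mul_sum]
      refine Finset.sum_congr rfl fun s _ => Finset.sum_congr rfl fun s' _ => ?_
      simp only [Finset.prod_mul_distrib]
      ring
    have hint : ∀ s : (Fin k → Fin n) × (Fin l → Fin n), Integrable (fun ζ : E n =>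
        ((∏ a, (starRingEnd ℂ) (η (s.1 a))) * (∏ b, x (s.2 b))) *
            ((∏ a, ζ (s.1 a)) * (∏ b, (starRingEnd ℂ) (ζ (s.2 b))))) (sig n) := by
      intro s
      have hcont : Continuous (fun ζ : E n =>
        ((∏ a, (starRingEnd ℂ) (η (s.1 a))) * (∏ b, x (s.2 b))) *
            ((∏ a, ζ (s.1 a)) * (∏ b, (starRingEnd ℂ) (ζ (s.2 b))))) := by
        refine continuous_const.mul (Continuous.mul (continuous_finsetProd _ fun a _ => ?_)
          (continuous_finsetProd _ fun b _ => ?_))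
        · fun_prop
        · exact continuous_conj.comp (by fun_prop)
      obtain ⟨B, hB⟩ := ((isCompact_sphere (0 : E n) 1).image hcont).isBounded.exists_norm_le
      exact integrable_bdd hn hcont B fun ζ hζ => hB _ ⟨ζ, by simpa using hζ, rfl⟩
    simp only [hexp]
    rw [integral_finsetSum _ (fun s _ => hint s)]
    simp only [Finset.mul_sum]
    rw [Finset.sum_comm]
    refine Finset.sum_congr rfl fun s _ => ?_
    rw [integral_const_mul]
    have h := hex (Sum.inl ⟨(⟨k, by omega⟩, ⟨l, by omega⟩), s⟩)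
    simp only at h
    rw [← h, Finset.mul_sum]
    refine Finset.sum_congr rfl fun i _ => ?_
    ring
  · intro z hz
    have hzb : z ∈ Metric.closedBall (0 : E n) 1 := by simpa using hz
    obtain ⟨r, hr⟩ := Set.mem_iUnion.1 (htc hzb)
    obtain ⟨hrt, hzr⟩ := Set.mem_iUnion.1 hr
    have hrb := hts hrt
    have hmass : ∑ i ∈ Finset.range m, w i = M := by
      have h := hex (Sum.inl ⟨(⟨0, by omega⟩, ⟨0, by omega⟩), (Fin.elim0, Fin.elim0)⟩)
      simp only [Finset.univ_eq_empty, Finset.prod_empty, mul_one, integral_const] at h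
      have h2 : ((∑ i ∈ Finset.range m, w i : ℝ) : ℂ) = ((M : ℝ) : ℂ) := by
        rw [Complex.ofReal_sum, h]
        simp [hM]
      exact_mod_cast h2
    have hr1 : ∑ i ∈ Finset.range m, w i * ‖G (ξ i) r‖ ≤ C := by
      have h := hex (Sum.inr ⟨r, hrt⟩)
      simp only at h
      have h2 : ((∑ i ∈ Finset.range m, w i * ‖G (ξ i) r‖ : ℝ) : ℂ) =
          ((∫ ζ, ‖G ζ r‖ ∂(sig n) : ℝ) : ℂ) := by
        rw [← integral_complex_ofReal, ← h, Complex.ofReal_sum]
        refine Finset.sum_congr rfl fun i _ => ?_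
        push_cast
        rfl
      have h3 : ∑ i ∈ Finset.range m, w i * ‖G (ξ i) r‖ = ∫ ζ, ‖G ζ r‖ ∂(sig n) := by
        exact_mod_cast h2
      rw [h3]
      exact hC r (by simpa using hrb)
    have hpt : ∀ i, ‖G (ξ i) z‖ ≤ ‖G (ξ i) r‖ + ε := by
      intro i
      have h := hδ (ξ i, z) ⟨by simpa using hξ i, hzb⟩ (ξ i, r) ⟨by simpa using hξ i, hrb⟩
        (by rw [Prod.dist_eq]; simpa using hzr)
      rw [dist_eq_norm] at h
      have h2 := norm_sub_norm_le (G (ξ i) z) (G (ξ i) r)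
      simp only at h
      linarith
    calc ∑ i ∈ Finset.range m, w i * ‖G (ξ i) z‖
        ≤ ∑ i ∈ Finset.range m, (w i * ‖G (ξ i) r‖ + w i * ε) := by
          refine Finset.sum_le_sum fun i _ => ?_
          have := mul_le_mul_of_nonneg_left (hpt i) (hw i)
          linarith
      _ = ∑ i ∈ Finset.range m, w i * ‖G (ξ i) r‖ + M * ε := by
          rw [Finset.sum_add_distrib, ← Finset.sum_mul, hmass]
      _ ≤ C + 1 := by
          have : M * ε ≤ 1 := by
            rw [hε, mul_one_div, div_le_one (by positivity)]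
            linarith
          linarith

end Pool.Agent.H795R2.BA
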