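import Mathlib
import Pool.Agent.H795R2.BA.Ops
import Pool.Agent.H795R2.BA.Quad
import Pool.Agent.HpBall2.Repro

set_option autoImplicit false

open MeasureTheory Complex Filter Topology

namespace Pool.Agent.H795R2.BA

open Pool.Agent.HpBall Pool.Agent.HpBall2

lemma diff_inner_pow {n : ℕ} (η : E n) (k : ℕ) :
    Differentiable ℂ (fun ζ : E n => (inner ℂ η ζ : ℂ) ^ k) := by
  have h : Differentiable ℂ (fun ζ : E n => (inner ℂ η ζ : ℂ)) := (innerSL ℂ η).differentiable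
  exact h.pow k

/-- orthogonality of different degrees -/
lemma orth2 {n : ℕ} (η x : E n) {k l : ℕ} (hkl : k ≠ l) :
    ∫ ζ, (inner ℂ η ζ : ℂ) ^ k * (inner ℂ ζ x : ℂ) ^ l ∂(sig n) = 0 := by
  set f : E n → ℂ := fun ξ => (inner ℂ η ξ : ℂ) ^ k * (inner ℂ ξ x : ℂ) ^ l with hf
  set θ : ℝ := Real.pi / ((k : ℝ) - l) with hθ
  have hne : (k : ℝ) - l ≠ 0 := by
    rw [sub_ne_zero]; exact_mod_cast hkl
  have h1 := integral_sig_isometry (rot n θ) f
  have h2 : ∀ ξ, f (rot n θ ξ) = -f ξ := by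
    intro ξ
    simp only [hf]
    rw [rot_apply, inner_smul_right, inner_smul_left, mul_pow, mul_pow]
    have e1 : (starRingEnd ℂ) (Complex.exp (θ * I)) = Complex.exp (-(θ * I)) := by
      rw [← Complex.exp_conj, map_mul, Complex.conj_ofReal, Complex.conj_I]
      ring_nf
    have e2 : Complex.exp (θ * I) ^ k * Complex.exp (-(θ * I)) ^ l = -1 := by
      rw [← Complex.exp_nat_mul, ← Complex.exp_nat_mul, ← Complex.exp_add]
      have e3 : (k : ℂ) * (θ * I) + (l : ℂ) * -(θ * I) = Real.pi * I := by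
        have : ((k : ℂ) - l) * θ = Real.pi := by
          have h3 : ((k : ℝ) - l) * θ = Real.pi := by
            rw [hθ]; field_simp
          exact_mod_cast h3
        linear_combination I * this
      rw [e3, Complex.exp_pi_mul_I]
    rw [e1]
    linear_combination (inner ℂ η ξ : ℂ) ^ k * (inner ℂ ξ x : ℂ) ^ l * e2
  simp only [h2] at h1
  rw [integral_neg] at h1
  have h3 : (2 : ℂ) * ∫ ξ, f ξ ∂(sig n) = 0 := by linear_combination -h1
  exact (mul_eq_zero.1 h3).resolve_left two_ne_zero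

lemma same_deg {n : ℕ} (hn : 1 ≤ n) (η x : E n) (k : ℕ) :
    (cn n k : ℂ) * ∫ ζ, (inner ℂ η ζ : ℂ) ^ k * (inner ℂ ζ x : ℂ) ^ k ∂(sig n) =
      (inner ℂ η x : ℂ) ^ k := by
  rw [← repro_hom n hn k (fun ζ => (inner ℂ η ζ : ℂ) ^ k) (diff_inner_pow η k) (by
    intro c z
    rw [inner_smul_right, mul_pow]) x]

/-- exactness of the quadrature against homogeneous components -/
theorem exact_hom {n : ℕ} (hn : 1 ≤ n) {m D : ℕ} {ξ : ℕ → E n} {w : ℕ → ℝ}
    (hq : ∀ k l : ℕ, k ≤ D → l ≤ D → ∀ η x : E n,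
        ∑ i ∈ Finset.range m, (w i : ℂ) * ((inner ℂ η (ξ i) : ℂ) ^ k * (inner ℂ (ξ i) x : ℂ) ^ l) =
          ∫ ζ, (inner ℂ η ζ : ℂ) ^ k * (inner ℂ ζ x : ℂ) ^ l ∂(sig n))
    (Q : E n → ℂ) (hQ : Differentiable ℂ Q) (k l : ℕ) (hk : k ≤ D) (hl : l ≤ D)
    (hh : ∀ (c : ℂ) (z : E n), Q (c • z) = c ^ k * Q z) (x : E n) :
    (cn n l : ℂ) * ∑ i ∈ Finset.range m, (w i : ℂ) * (Q (ξ i) * (inner ℂ (ξ i) x : ℂ) ^ l) =
      if k = l then Q x else 0 := by
  have hint : ∀ y : E n, Integrable (fun η => Q η * (inner ℂ η y : ℂ) ^ k) (sig n) := by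
    intro y
    have hc : Continuous (fun η => Q η * (inner ℂ η y : ℂ) ^ k) := by
      have := hQ.continuous
      fun_prop
    obtain ⟨B, hB⟩ := (isCompact_closedBall (0 : E n) 1).exists_bound_of_continuousOn
      hc.continuousOn
    apply integrable_bdd hn hc B
    intro η hη
    exact hB η (by rw [mem_closedBall_zero_iff, hη])
  have h1 : ∀ i, Q (ξ i) = (cn n k : ℂ) * ∫ η, Q η * (inner ℂ η (ξ i) : ℂ) ^ k ∂(sig n) :=
    fun i => repro_hom n hn k Q hQ hh (ξ i)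
  have h2 : ∑ i ∈ Finset.range m, (w i : ℂ) * (Q (ξ i) * (inner ℂ (ξ i) x : ℂ) ^ l) =
      (cn n k : ℂ) * ∫ η, Q η * (∫ ζ, (inner ℂ η ζ : ℂ) ^ k * (inner ℂ ζ x : ℂ) ^ l ∂(sig n))
        ∂(sig n) := by
    have h3 : ∀ η : E n, Q η * (∫ ζ, (inner ℂ η ζ : ℂ) ^ k * (inner ℂ ζ x : ℂ) ^ l ∂(sig n)) =
        ∑ i ∈ Finset.range m, ((w i : ℂ) * (inner ℂ (ξ i) x : ℂ) ^ l) *
          (Q η * (inner ℂ η (ξ i) : ℂ) ^ k) := by
      intro η
      rw [← hq k l hk hl η x, Finset.mul_sum]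
      exact Finset.sum_congr rfl fun i _ => by ring
    simp only [h3]
    rw [integral_finsetSum _ (fun i _ => (hint (ξ i)).const_mul _), Finset.mul_sum]
    refine Finset.sum_congr rfl fun i _ => ?_
    rw [integral_const_mul, h1 i]
    ring
  rw [h2]
  split_ifs with h
  · subst h
    have hcn : (cn n k : ℂ) ≠ 0 := by exact_mod_cast (B02_cn_pos n k).ne'
    have h4 : ∀ η : E n, Q η * (∫ ζ, (inner ℂ η ζ : ℂ) ^ k * (inner ℂ ζ x : ℂ) ^ k ∂(sig n)) =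
        (cn n k : ℂ)⁻¹ * (Q η * (inner ℂ η x : ℂ) ^ k) := by
      intro η
      rw [← same_deg hn η x k]
      field_simp
    simp only [h4]
    rw [integral_const_mul, repro_hom n hn k Q hQ hh x]
    field_simp
  · have h4 : ∀ η : E n, Q η * (∫ ζ, (inner ℂ η ζ : ℂ) ^ k * (inner ℂ ζ x : ℂ) ^ l ∂(sig n)) = 0 := by
      intro η
      rw [orth2 η x h, mul_zero]
    simp only [h4]
    rw [integral_zero, mul_zero, mul_zero]

/-- monomials -/
theorem exists_MX (n : ℕ) : ∃ MX : ℕ → E n → XB n, ∀ k ζ z, ‖z‖ ≤ 1 →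
    vl (MX k ζ) z = (inner ℂ ζ z : ℂ) ^ k := by
  choose MX h using fun (k : ℕ) (ζ : E n) => exists_X (fun z : E n => (inner ℂ ζ z : ℂ) ^ k)
    (diff_inner_pow ζ k).continuous.continuousOn (diff_inner_pow ζ k).differentiableOn
  exact ⟨MX, h⟩

section Proj

variable {n : ℕ} {P : ℕ → (XB n →L[ℂ] XB n)}
  (hP : ∀ k f (z : E n), ‖z‖ ≤ 1 → vl (P k f) z = hc (vl f) k z)
  {MX : ℕ → E n → XB n} (hM : ∀ k ζ z, ‖z‖ ≤ 1 → vl (MX k ζ) z = (inner ℂ ζ z : ℂ) ^ k)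

include hP hM in
lemma P_MX (k l : ℕ) (ζ : E n) : P k (MX l ζ) = if k = l then MX l ζ else 0 := by
  apply X_eq
  intro z hz
  rw [hP _ _ _ hz, hc_hom (l := l) (by
    intro w hw
    have h1 : ‖w • z‖ ≤ 1 := by
      rw [norm_smul]
      exact mul_le_one₀ hw.le (norm_nonneg _) hz
    rw [hM _ _ _ h1, hM _ _ _ hz, inner_smul_right, mul_pow])]
  split_ifs with h
  · rfl
  · rw [vl_zero]

/-- the kernels as elements of the ball algebra -/
noncomputable def KX (MX : ℕ → E n → XB n) (j : ℕ) (ζ : E n) : XB n :=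
  ∑ k ∈ Finset.range (2 ^ j + 1), ((mu j k * cn n k : ℝ) : ℂ) • MX k ζ

include hM in
lemma vl_KX (j : ℕ) (ζ : E n) {z : E n} (hz : ‖z‖ ≤ 1) : vl (KX MX j ζ) z = Ker n j ζ z := by
  unfold KX Ker
  rw [vl_sum]
  refine Finset.sum_congr rfl fun k _ => ?_
  rw [vl_smul, hM _ _ _ hz]

include hP hM in
lemma DD_KX_far {i j : ℕ} (h : i + 3 ≤ j ∨ j + 3 ≤ i) (ζ : E n) : DD P j (KX MX i ζ) = 0 := by
  rw [DD_apply]
  apply Finset.sum_eq_zero
  intro k _
  unfold KX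
  rw [map_sum]
  simp only [map_smul, P_MX hP hM]
  rw [Finset.smul_sum]
  apply Finset.sum_eq_zero
  intro l _
  by_cases hkl : k = l
  · subst hkl
    rw [if_pos rfl, smul_smul]
    have h1 := du_mul_far (k := k) h
    have h2 : (du j k : ℂ) * ((mu i k * cn n k : ℝ) : ℂ) = 0 := by
      rw [← Complex.ofReal_mul, ← mul_assoc, h1, zero_mul, Complex.ofReal_zero]
    rw [h2, zero_smul]
  · rw [if_neg hkl, smul_zero, smul_zero]

include hP hM in
/-- the quadrature reproduces the block -/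
theorem quad_block (hn : 1 ≤ n) {m j : ℕ} {ξ : ℕ → E n} {w : ℕ → ℝ}
    (hξ : ∀ i, ‖ξ i‖ = 1)
    (hq : ∀ k l : ℕ, k ≤ 2 ^ (j + 2) → l ≤ 2 ^ (j + 2) → ∀ η x : E n,
        ∑ i ∈ Finset.range m, (w i : ℂ) * ((inner ℂ η (ξ i) : ℂ) ^ k * (inner ℂ (ξ i) x : ℂ) ^ l) =
          ∫ ζ, (inner ℂ η ζ : ℂ) ^ k * (inner ℂ ζ x : ℂ) ^ l ∂(sig n)) (f : XB n) :
    ∑ i ∈ Finset.range m, vl (DD P j f) (ξ i) • ((w i : ℂ) • KX MX j (ξ i)) = AA P j f := by
  apply X_eq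
  intro z hz
  obtain ⟨hd, hh, -⟩ := hc_props n _ (vl_diff f)
  rw [vl_sum, AA_long (K := 2 ^ (j + 2)) (Nat.pow_le_pow_right (by norm_num) (by omega)), vl_sum]
  have h1 : ∀ i ∈ Finset.range m, vl (vl (DD P j f) (ξ i) • ((w i : ℂ) • KX MX j (ξ i))) z =
      ∑ k ∈ Finset.range (2 ^ (j + 2)), ∑ l ∈ Finset.range (2 ^ j + 1),
        ((du j k : ℂ) * (mu j l : ℂ)) * ((cn n l : ℂ) *
          ((w i : ℂ) * (hc (vl f) k (ξ i) * (inner ℂ (ξ i) z : ℂ) ^ l))) := by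
    intro i _
    rw [vl_smul, vl_smul, vl_KX hM _ _ hz, DD_apply, vl_sum]
    unfold Ker
    rw [mul_left_comm, Finset.sum_mul_sum, Finset.mul_sum]
    refine Finset.sum_congr rfl fun k _ => ?_
    rw [Finset.mul_sum]
    refine Finset.sum_congr rfl fun l _ => ?_
    rw [vl_smul, hP _ _ _ (hξ i).le]
    push_cast
    ring
  rw [Finset.sum_congr rfl h1, Finset.sum_comm]
  refine Finset.sum_congr rfl fun k hk => ?_
  rw [Finset.mem_range] at hk
  rw [Finset.sum_comm, vl_smul, hP _ _ _ hz]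
  have h2 : ∀ l ∈ Finset.range (2 ^ j + 1), ∑ i ∈ Finset.range m,
      ((du j k : ℂ) * (mu j l : ℂ)) * ((cn n l : ℂ) *
          ((w i : ℂ) * (hc (vl f) k (ξ i) * (inner ℂ (ξ i) z : ℂ) ^ l))) =
      if k = l then (mu j k : ℂ) * hc (vl f) k z else 0 := by
    intro l hl
    rw [Finset.mem_range] at hl
    have h3 : 2 ^ j < 2 ^ (j + 2) := Nat.pow_lt_pow_right (by norm_num) (by omega)
    rw [← Finset.mul_sum, ← Finset.mul_sum,
      exact_hom hn hq (hc (vl f) k) (hd k) k l hk.le (by omega) (hh k) z]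
    by_cases hkl : k = l
    · subst hkl
      rw [if_pos rfl, if_pos rfl, ← Complex.ofReal_mul, du_mul_self]
    · rw [if_neg hkl, if_neg hkl, mul_zero]
  rw [Finset.sum_congr rfl h2, Finset.sum_ite_eq]
  split_ifs with h3
  · rfl
  · rw [Finset.mem_range, not_lt] at h3
    rw [mu_high (by omega), Complex.ofReal_zero, zero_mul]

end Proj

end Pool.Agent.H795R2.BA
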