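import Pool.Agent.H795R2.BA.Defs

set_option autoImplicit false

open MeasureTheory Complex Filter Topology

namespace Pool.Agent.H795R2.BA

open Pool.Agent.HpBall Pool.Agent.HpBall2

/-- two unit vectors cannot both be almost parallel to z unless they are almost parallel -/
theorem peaks_key {F : Type*} [NormedAddCommGroup F] [InnerProductSpace ℂ F] (x y z : F)
    (hx : ‖x‖ = 1) (hy : ‖y‖ = 1) (hz : ‖z‖ ≤ 1) :
    ‖(inner ℂ x z : ℂ)‖ ^ 2 + ‖(inner ℂ y z : ℂ)‖ ^ 2 ≤ 1 + ‖(inner ℂ x y : ℂ)‖ := by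
  set a : ℂ := inner ℂ x z with ha
  set b : ℂ := inner ℂ y z with hb
  set c : ℂ := inner ℂ x y with hc
  set v : F := a • x + b • y with hv
  have h1 : (inner ℂ v z : ℂ) = ((‖a‖ ^ 2 + ‖b‖ ^ 2 : ℝ) : ℂ) := by
    rw [hv, inner_add_left, inner_smul_left, inner_smul_left, ← ha, ← hb]
    push_cast
    rw [← Complex.conj_mul', ← Complex.conj_mul']
  have h2 : ‖v‖ ^ 2 ≤ (‖a‖ ^ 2 + ‖b‖ ^ 2) * (1 + ‖c‖) := by
    have e1 : ‖v‖ ^ 2 = ‖a • x‖ ^ 2 + 2 * RCLike.re (inner ℂ (a • x) (b • y) : ℂ) +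
        ‖b • y‖ ^ 2 := by
      rw [hv]; exact norm_add_sq (𝕜 := ℂ) (a • x) (b • y)
    have e2 : RCLike.re (inner ℂ (a • x) (b • y) : ℂ) ≤ ‖a‖ * ‖b‖ * ‖c‖ := by
      refine (RCLike.re_le_norm _).trans ?_
      rw [inner_smul_left, inner_smul_right, norm_mul, norm_mul, ← hc, RCLike.norm_conj]
      exact le_of_eq (by ring)
    rw [norm_smul, norm_smul, hx, hy] at e1
    have e3 : 2 * (‖a‖ * ‖b‖) ≤ ‖a‖ ^ 2 + ‖b‖ ^ 2 := by nlinarith [sq_nonneg (‖a‖ - ‖b‖)]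
    have e4 : 2 * (‖a‖ * ‖b‖) * ‖c‖ ≤ (‖a‖ ^ 2 + ‖b‖ ^ 2) * ‖c‖ :=
      mul_le_mul_of_nonneg_right e3 (norm_nonneg c)
    nlinarith
  have h3 : ‖a‖ ^ 2 + ‖b‖ ^ 2 ≤ ‖v‖ := by
    have e1 : ‖(inner ℂ v z : ℂ)‖ ≤ ‖v‖ * ‖z‖ := norm_inner_le_norm v z
    rw [h1, Complex.norm_real, Real.norm_eq_abs, abs_of_nonneg (by positivity)] at e1
    have e2 : ‖v‖ * ‖z‖ ≤ ‖v‖ * 1 := mul_le_mul_of_nonneg_left hz (norm_nonneg v)
    linarith
  have h4 : 0 ≤ ‖a‖ ^ 2 + ‖b‖ ^ 2 := by positivity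
  by_contra hcon
  push Not at hcon
  have h5 : (‖a‖ ^ 2 + ‖b‖ ^ 2) ^ 2 ≤ ‖v‖ ^ 2 := pow_le_pow_left₀ h4 h3 2
  have h6 : 0 < ‖a‖ ^ 2 + ‖b‖ ^ 2 := by
    have := norm_nonneg c
    linarith
  nlinarith

/-- an orthonormal pair gives a sequence of unit vectors, each isolated from the others -/
theorem peaks_seq {F : Type*} [NormedAddCommGroup F] [InnerProductSpace ℂ F] (e f : F)
    (he : ‖e‖ = 1) (hf : ‖f‖ = 1) (hef : (inner ℂ e f : ℂ) = 0) :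
    ∃ (x : ℕ → F) (c : ℕ → ℝ), (∀ k, ‖x k‖ = 1) ∧ (∀ k, 0 ≤ c k) ∧ (∀ k, c k < 1) ∧
      ∀ k l, k ≠ l → ‖(inner ℂ (x k) (x l) : ℂ)‖ ≤ c k := by
  have hfe : (inner ℂ f e : ℂ) = 0 := by
    rw [← inner_conj_symm, hef, map_zero]
  have hee : (inner ℂ e e : ℂ) = 1 := by
    rw [inner_self_eq_norm_sq_to_K, he]; norm_num
  have hff : (inner ℂ f f : ℂ) = 1 := by
    rw [inner_self_eq_norm_sq_to_K, hf]; norm_num
  let s : ℕ → ℝ := fun k => (Real.sqrt (1 + (k : ℝ) ^ 2))⁻¹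
  let x : ℕ → F := fun k => ((s k : ℝ) : ℂ) • (e + ((k : ℝ) : ℂ) • f)
  have hs : ∀ k, 0 < s k := fun k => by
    have : (0 : ℝ) < 1 + (k : ℝ) ^ 2 := by positivity
    exact inv_pos.mpr (Real.sqrt_pos.mpr this)
  have hs2 : ∀ k, s k ^ 2 * (1 + (k : ℝ) ^ 2) = 1 := fun k => by
    have h0 : (0 : ℝ) < 1 + (k : ℝ) ^ 2 := by positivity
    show ((Real.sqrt (1 + (k : ℝ) ^ 2))⁻¹) ^ 2 * (1 + (k : ℝ) ^ 2) = 1
    rw [inv_pow, Real.sq_sqrt h0.le]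
    exact inv_mul_cancel₀ h0.ne'
  have hin : ∀ k l, (inner ℂ (x k) (x l) : ℂ) = ((s k * s l * (1 + (k : ℝ) * l) : ℝ) : ℂ) := by
    intro k l
    show (inner ℂ (((s k : ℝ) : ℂ) • (e + ((k : ℝ) : ℂ) • f))
      (((s l : ℝ) : ℂ) • (e + ((l : ℝ) : ℂ) • f)) : ℂ) = _
    rw [inner_smul_left, inner_smul_right, inner_add_left, inner_add_right, inner_add_right,
      inner_smul_left, inner_smul_right, inner_smul_left, inner_smul_right, hee, hff, hef, hfe,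
      Complex.conj_ofReal, Complex.conj_ofReal]
    push_cast
    ring
  let ε : ℕ → ℝ := fun k => 1 / ((1 + (k : ℝ) ^ 2) * (1 + ((k : ℝ) + 1) ^ 2))
  have hε : ∀ k, 0 < ε k := fun k => by
    show 0 < 1 / ((1 + (k : ℝ) ^ 2) * (1 + ((k : ℝ) + 1) ^ 2))
    positivity
  refine ⟨x, fun k => Real.sqrt (1 - ε k), ?_, fun k => Real.sqrt_nonneg _, ?_, ?_⟩
  · intro k
    have h1 : (inner ℂ (x k) (x k) : ℂ) = 1 := by
      rw [hin]
      have : s k * s k * (1 + (k : ℝ) * k) = 1 := by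
        have := hs2 k
        nlinarith
      rw [this]; norm_num
    have h2 : ‖x k‖ ^ 2 = 1 := by
      rw [← inner_self_eq_norm_sq (𝕜 := ℂ) (x k), h1]
      simp
    have h3 := norm_nonneg (x k)
    nlinarith
  · intro k
    have h := hε k
    rw [Real.sqrt_lt' one_pos]
    linarith
  · intro k l hkl
    apply Real.le_sqrt_of_sq_le
    rw [hin, Complex.norm_real, Real.norm_eq_abs, sq_abs]
    have h1 := hs2 k
    have h2 := hs2 l
    have h3 : (s k * s l * (1 + (k : ℝ) * l)) ^ 2 =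
        1 - s k ^ 2 * s l ^ 2 * ((k : ℝ) - l) ^ 2 := by
      have : (1 + (k : ℝ) * l) ^ 2 = (1 + (k : ℝ) ^ 2) * (1 + (l : ℝ) ^ 2) - ((k : ℝ) - l) ^ 2 := by
        ring
      calc (s k * s l * (1 + (k : ℝ) * l)) ^ 2 = s k ^ 2 * s l ^ 2 * (1 + (k : ℝ) * l) ^ 2 := by
            ring
        _ = (s k ^ 2 * (1 + (k : ℝ) ^ 2)) * (s l ^ 2 * (1 + (l : ℝ) ^ 2)) -
            s k ^ 2 * s l ^ 2 * ((k : ℝ) - l) ^ 2 := by rw [this]; ring
        _ = _ := by rw [h1, h2]; ring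
    rw [h3]
    have h4 : ε k ≤ s k ^ 2 * s l ^ 2 * ((k : ℝ) - l) ^ 2 := by
      have e1 : s k ^ 2 = 1 / (1 + (k : ℝ) ^ 2) := by
        rw [eq_div_iff (by positivity)]; exact h1
      have e2 : s l ^ 2 = 1 / (1 + (l : ℝ) ^ 2) := by
        rw [eq_div_iff (by positivity)]; exact h2
      show 1 / ((1 + (k : ℝ) ^ 2) * (1 + ((k : ℝ) + 1) ^ 2)) ≤ _
      rw [e1, e2]
      have hkey : 1 + (l : ℝ) ^ 2 ≤ (1 + ((k : ℝ) + 1) ^ 2) * ((k : ℝ) - l) ^ 2 := by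
        have hk0 : (0 : ℝ) ≤ k := Nat.cast_nonneg k
        rcases lt_or_gt_of_ne hkl with h | h
        · have h' : (k : ℝ) + 1 ≤ l := by exact_mod_cast h
          obtain ⟨d, hd⟩ : ∃ d : ℝ, d = (l : ℝ) - k := ⟨_, rfl⟩
          have hd1 : 1 ≤ d := by linarith
          have hl : (l : ℝ) = k + d := by linarith
          rw [hl]
          have t1 : 1 ≤ d ^ 2 := by nlinarith
          have t2 : d ≤ d ^ 2 := by nlinarith
          have t3 : (k : ℝ) ^ 2 ≤ k ^ 2 * d ^ 2 := by nlinarith [sq_nonneg (k : ℝ)]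
          have t4 : (k : ℝ) * d ≤ k * d ^ 2 := mul_le_mul_of_nonneg_left t2 hk0
          nlinarith
        · have h' : (l : ℝ) + 1 ≤ k := by exact_mod_cast h
          have hl0 : (0 : ℝ) ≤ l := Nat.cast_nonneg l
          have t1 : 1 ≤ ((k : ℝ) - l) ^ 2 := by nlinarith
          have t2 : (l : ℝ) ^ 2 ≤ ((k : ℝ) + 1) ^ 2 := by nlinarith
          nlinarith [sq_nonneg ((k : ℝ) + 1)]
      have hA : (0 : ℝ) < 1 + (k : ℝ) ^ 2 := by positivity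
      have hB : (0 : ℝ) < 1 + ((k : ℝ) + 1) ^ 2 := by positivity
      have hC : (0 : ℝ) < 1 + (l : ℝ) ^ 2 := by positivity
      rw [div_mul_div_comm, div_mul_eq_mul_div, div_le_div_iff₀ (by positivity) (by positivity)]
      have := mul_le_mul_of_nonneg_left hkey hA.le
      nlinarith
    linarith

/-- Task E: peaking monomials -/
theorem peaks (n : ℕ) (hn : 2 ≤ n) : ∃ (ζ : ℕ → E n) (N : ℕ → ℕ) (C : ℝ), (∀ k, ‖ζ k‖ = 1) ∧
    StrictMono N ∧ (∀ k, 1 ≤ N k) ∧ ∀ (s : Finset ℕ) (z : E n), ‖z‖ ≤ 1 →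
      ∑ k ∈ s, ‖(inner ℂ (ζ k) z : ℂ)‖ ^ N k ≤ C := by
  have hne : (⟨0, by omega⟩ : Fin n) ≠ ⟨1, by omega⟩ := by
    intro h
    have := congrArg Fin.val h
    simp at this
  obtain ⟨x, c, hx, hc0, hc1, hc⟩ := peaks_seq
    (EuclideanSpace.single (⟨0, by omega⟩ : Fin n) (1 : ℂ))
    (EuclideanSpace.single (⟨1, by omega⟩ : Fin n) (1 : ℂ))
    (by simp) (by simp) (by
      simp [EuclideanSpace.inner_single_left])
  let q : ℕ → ℝ := fun k => Real.sqrt ((1 + c k) / 2)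
  have hq0 : ∀ k, 0 ≤ q k := fun k => Real.sqrt_nonneg _
  have hq1 : ∀ k, q k < 1 := fun k => by
    show Real.sqrt ((1 + c k) / 2) < 1
    rw [Real.sqrt_lt' one_pos]
    have := hc1 k
    linarith
  have hq2 : ∀ k, q k ^ 2 = (1 + c k) / 2 := fun k => by
    have := hc0 k
    exact Real.sq_sqrt (by linarith)
  obtain ⟨N, hN, hNp⟩ := Filter.extraction_forall_of_eventually'
    (P := fun k m => q k ^ m ≤ (1 / 2 : ℝ) ^ k ∧ 1 ≤ m) (by
      intro k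
      have h1 : Tendsto (fun m : ℕ => q k ^ m) atTop (𝓝 0) :=
        tendsto_pow_atTop_nhds_zero_of_lt_one (hq0 k) (hq1 k)
      have h2 : ∀ᶠ m : ℕ in atTop, q k ^ m < (1 / 2 : ℝ) ^ k :=
        h1.eventually_lt_const (by positivity)
      obtain ⟨M, hM⟩ := ((h2.mono fun m hm => hm.le).and (eventually_ge_atTop 1)).exists_forall_of_atTop
      exact ⟨M, hM⟩)
  refine ⟨x, N, 3, hx, hN, fun k => (hNp k).2, ?_⟩
  intro s z hz
  have hle1 : ∀ k, ‖(inner ℂ (x k) z : ℂ)‖ ≤ 1 := fun k => by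
    refine (norm_inner_le_norm (x k) z).trans ?_
    rw [hx, one_mul]; exact hz
  have huniq : ∀ k l, k ≠ l → q k < ‖(inner ℂ (x k) z : ℂ)‖ → ‖(inner ℂ (x l) z : ℂ)‖ ≤ q l := by
    intro k l hkl hk
    by_contra hl
    push Not at hl
    have h1 := peaks_key (x k) (x l) z (hx k) (hx l) hz
    have h2 := hc k l hkl
    have h3 : ‖(inner ℂ (x k) (x l) : ℂ)‖ ≤ c l := by
      rw [← inner_conj_symm, RCLike.norm_conj]
      exact hc l k hkl.symm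
    have h4 : q k ^ 2 < ‖(inner ℂ (x k) z : ℂ)‖ ^ 2 := pow_lt_pow_left₀ hk (hq0 k) two_ne_zero
    have h5 : q l ^ 2 < ‖(inner ℂ (x l) z : ℂ)‖ ^ 2 := pow_lt_pow_left₀ hl (hq0 l) two_ne_zero
    rw [hq2] at h4 h5
    linarith
  obtain ⟨k0, hk0⟩ : ∃ k0, ∀ k, k ≠ k0 → ‖(inner ℂ (x k) z : ℂ)‖ ≤ q k := by
    by_cases h : ∃ k, q k < ‖(inner ℂ (x k) z : ℂ)‖
    · obtain ⟨k0, h0⟩ := h
      exact ⟨k0, fun k hk => huniq k0 k hk.symm h0⟩
    · push Not at h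
      exact ⟨0, fun k _ => h k⟩
  have hterm : ∀ k ∈ s, ‖(inner ℂ (x k) z : ℂ)‖ ^ N k ≤
      (1 / 2 : ℝ) ^ k + (if k = k0 then 1 else 0) := by
    intro k _
    split_ifs with h
    · have h1 : ‖(inner ℂ (x k) z : ℂ)‖ ^ N k ≤ 1 := pow_le_one₀ (norm_nonneg _) (hle1 k)
      have h2 : (0 : ℝ) ≤ (1 / 2 : ℝ) ^ k := by positivity
      linarith
    · have h1 : ‖(inner ℂ (x k) z : ℂ)‖ ^ N k ≤ q k ^ N k :=
        pow_le_pow_left₀ (norm_nonneg _) (hk0 k h) _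
      have h2 := (hNp k).1
      linarith
  refine (Finset.sum_le_sum hterm).trans ?_
  rw [Finset.sum_add_distrib]
  have h1 : ∑ k ∈ s, (1 / 2 : ℝ) ^ k ≤ 2 := by
    have := summable_geometric_two.sum_le_tsum s (fun i _ => by positivity)
    rw [tsum_geometric_two] at this
    exact this
  have h2 : ∑ k ∈ s, (if k = k0 then (1 : ℝ) else 0) ≤ 1 := by
    rw [Finset.sum_ite_eq' s k0 (fun _ => (1 : ℝ))]
    split_ifs <;> norm_num
  linarith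

end Pool.Agent.H795R2.BA
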