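import Mathlib
import Pool.Agent.H795R2.BA.Exact
import Pool.Agent.H795R2.BA.Peaks
import Pool.Agent.H795R2.BA.Abs

set_option autoImplicit false

open MeasureTheory Complex Filter Topology

namespace Pool.Agent.H795R2.BA

open Pool.Agent.HpBall Pool.Agent.HpBall2

lemma Ker_cont2 (n j : ℕ) : Continuous (fun q : E n × E n => Ker n j q.1 q.2) := by
  unfold Ker
  apply continuous_finsetSum
  intro k _
  apply Continuous.mul continuous_const
  apply Continuous.pow
  exact continuous_fst.inner continuous_snd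

/-- the ball algebra has a Schauder basis (Banach space form) -/
theorem basis_X (n : ℕ) (hn : 2 ≤ n) :
    ∃ (e : ℕ → XB n) (e' : ℕ → (XB n →L[ℂ] ℂ)), (∀ k l, e' k (e l) = if k = l then 1 else 0) ∧
      ∀ x, Tendsto (fun N => ∑ k ∈ Finset.range N, e' k x • e k) atTop (𝓝 x) := by
  have hn1 : 1 ≤ n := by omega
  obtain ⟨P, hP1, hP⟩ := exists_P n
  obtain ⟨MX, hMX⟩ := exists_MX n
  obtain ⟨C1, hC1, hker⟩ := ker_L1 n hn1
  obtain ⟨C2, hC2, hRR⟩ := RR_bound hP
  obtain ⟨ζ, Nn, C3, hζ, hNn, hNn1, hpk⟩ := peaks n hn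
  choose ev hev1 hev using fun z : E n => exists_ev z
  choose m ξ w hξ hw hq hb using fun j => quadrature n hn1 (2 ^ (j + 2)) (Ker n j) (Ker_cont2 n j)
    C1 (hker j)
  -- padding
  obtain ⟨w', hw'⟩ : ∃ w' : ℕ → ℕ → ℝ, ∀ j i, w' j i = if i < m j then w j i else 0 :=
    ⟨_, fun j i => rfl⟩
  have hw'0 : ∀ j i, 0 ≤ w' j i := by
    intro j i
    rw [hw']
    split_ifs
    · exact hw j i
    · exact le_rfl
  -- the blocks
  set M : ℕ → ℕ := fun J => ∑ j ∈ Finset.range J, (m j + 1) with hMdef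
  have hM0 : M 0 = 0 := by simp [hMdef]
  have hMs : ∀ J, M (J + 1) = M J + (m J + 1) := fun J => Finset.sum_range_succ _ _
  have hM : StrictMono M := strictMono_nat_of_lt_succ fun J => by rw [hMs]; omega
  have hblk : ∀ j i, i < m j + 1 → blk M (M j + i) = j := by
    intro j i hi
    have h1 := lt_of_lt_blk hM (k := M j + i) (j := j) (Nat.le_add_right _ _)
    have h2 := blk_lt_of hM0 hM (k := M j + i) (j := j + 1) (by rw [hMs]; omega)
    omega
  have hsum : ∀ {β : Type} [AddCommMonoid β] (j : ℕ) (F : ℕ → ℕ → β),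
      ∑ k ∈ Finset.Ico (M j) (M (j + 1)), F (blk M k) (k - M (blk M k)) =
        ∑ i ∈ Finset.range (m j + 1), F j i := by
    intro β _ j F
    rw [Finset.sum_Ico_eq_sum_range, hMs, Nat.add_sub_cancel_left]
    refine Finset.sum_congr rfl fun i hi => ?_
    rw [Finset.mem_range] at hi
    rw [hblk j i hi, Nat.add_sub_cancel_left]
  obtain ⟨a, ha⟩ : ∃ a : ℕ → (XB n →L[ℂ] ℂ), ∀ k, a k =
      (ev (ξ (blk M k) (k - M (blk M k)))).comp (DD P (blk M k)) := ⟨_, fun k => rfl⟩
  obtain ⟨b, hbd⟩ : ∃ b : ℕ → XB n, ∀ k, b k =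
      ((w' (blk M k) (k - M (blk M k)) : ℝ) : ℂ) •
        KX MX (blk M k) (ξ (blk M k) (k - M (blk M k))) := ⟨_, fun k => rfl⟩
  set C : ℝ := 2 * C2 + C1 + |C3| + 2 with hCdef
  have hC0 : 0 ≤ C := by positivity
  refine abstract_basis M hM0 hM 3 C a b ?_ ?_ ?_ ?_ (fun k => MX (Nn k) (ζ k))
    (fun k => (ev (ζ k)).comp (P (Nn k))) ?_ ?_ ?_ ?_
  · -- bound of a
    intro k
    rw [ha]
    refine (ContinuousLinearMap.opNorm_comp_le _ _).trans ?_
    have h1 : ‖DD P (blk M k)‖ ≤ 2 * C2 := by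
      unfold DD
      refine (norm_sub_le _ _).trans ?_
      have h2 := hRR (blk M k + 2)
      have h3 := hRR (blk M k - 1)
      linarith
    have h2 := hev1 (ξ (blk M k) (k - M (blk M k)))
    have h3 := norm_nonneg (DD P (blk M k))
    have h4 := abs_nonneg C3
    calc ‖ev (ξ (blk M k) (k - M (blk M k)))‖ * ‖DD P (blk M k)‖ ≤ 1 * (2 * C2) :=
          mul_le_mul h2 h1 h3 zero_le_one
      _ ≤ C := by rw [hCdef]; linarith
  · -- bound of b
    intro j c s hs hc
    have h4 := abs_nonneg C3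
    refine le_trans (norm_le_X _ (B := C1 + 1) (by positivity) fun z hz => ?_) (by
      rw [hCdef]; linarith)
    rw [vl_sum]
    have h1 : ∀ k ∈ s, ‖vl (c k • b k) z‖ ≤ (fun j i => w' j i * ‖Ker n j (ξ j i) z‖) (blk M k)
        (k - M (blk M k)) := by
      intro k hk
      rw [vl_smul, hbd, vl_smul, vl_KX hMX _ _ hz, norm_mul, norm_mul, Complex.norm_real,
        Real.norm_of_nonneg (hw'0 _ _)]
      have h2 := hc k hk
      have h3 : 0 ≤ w' (blk M k) (k - M (blk M k)) *
          ‖Ker n (blk M k) (ξ (blk M k) (k - M (blk M k))) z‖ :=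
        mul_nonneg (hw'0 _ _) (norm_nonneg _)
      nlinarith
    calc ‖∑ k ∈ s, vl (c k • b k) z‖ ≤ ∑ k ∈ s, ‖vl (c k • b k) z‖ := norm_sum_le _ _
      _ ≤ ∑ k ∈ s, (fun j i => w' j i * ‖Ker n j (ξ j i) z‖) (blk M k) (k - M (blk M k)) :=
          Finset.sum_le_sum h1
      _ ≤ ∑ k ∈ Finset.Ico (M j) (M (j + 1)), (fun j i => w' j i * ‖Ker n j (ξ j i) z‖) (blk M k)
            (k - M (blk M k)) := by
          apply Finset.sum_le_sum_of_subset_of_nonneg hs
          intro k _ _
          exact mul_nonneg (hw'0 _ _) (norm_nonneg _)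
      _ = ∑ i ∈ Finset.range (m j + 1), w' j i * ‖Ker n j (ξ j i) z‖ :=
          hsum j (fun j i => w' j i * ‖Ker n j (ξ j i) z‖)
      _ = ∑ i ∈ Finset.range (m j), w j i * ‖Ker n j (ξ j i) z‖ := by
          rw [Finset.sum_range_succ, hw' j (m j), if_neg (by omega), zero_mul, add_zero]
          refine Finset.sum_congr rfl fun i hi => ?_
          rw [Finset.mem_range] at hi
          rw [hw', if_pos hi]
      _ ≤ C1 + 1 := hb j z hz
  · -- reconstruction
    intro x
    refine (RR_tendsto hP x).congr fun J => ?_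
    rw [RR_eq]
    induction J with
    | zero => rw [hM0, Finset.range_zero, Finset.sum_empty, Finset.sum_empty]
    | succ J ih =>
      rw [Finset.sum_range_succ, ih, Finset.range_eq_Ico, Finset.range_eq_Ico,
        ← Finset.sum_Ico_consecutive _ (Nat.zero_le _) (hM.monotone (Nat.le_succ J))]
      congr 1
      have h1 : ∀ k ∈ Finset.Ico (M J) (M (J + 1)), a k x • b k =
          (fun j i => vl (DD P j x) (ξ j i) • (((w' j i : ℝ) : ℂ) • KX MX j (ξ j i))) (blk M k)
            (k - M (blk M k)) := by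
        intro k _
        rw [ha, hbd, ContinuousLinearMap.comp_apply, hev]
      rw [Finset.sum_congr rfl h1, hsum J (fun j i => vl (DD P j x) (ξ j i) •
        (((w' j i : ℝ) : ℂ) • KX MX j (ξ j i)))]
      rw [Finset.sum_range_succ, hw' J (m J), if_neg (by omega), Complex.ofReal_zero, zero_smul,
        smul_zero, add_zero, ← quad_block hP hMX hn1 (hξ J) (hq J) x]
      refine Finset.sum_congr rfl fun i hi => ?_
      rw [Finset.mem_range] at hi
      rw [hw', if_pos hi]
  · -- band structure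
    intro j k l hk hl
    have h1 := blk_lt_of hM0 hM hk
    have h2 := lt_of_lt_blk hM hl
    constructor
    · rw [ha, hbd, ContinuousLinearMap.comp_apply, map_smul,
        DD_KX_far hP hMX (Or.inr (by omega)), smul_zero, map_zero]
    · rw [ha, hbd, ContinuousLinearMap.comp_apply, map_smul,
        DD_KX_far hP hMX (Or.inl (by omega)), smul_zero, map_zero]
  · -- c0 part: g
    intro c s hc
    have h4 := le_abs_self C3
    refine le_trans (norm_le_X _ (B := |C3|) (abs_nonneg _) fun z hz => ?_) (by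
      rw [hCdef]; linarith)
    rw [vl_sum]
    calc ‖∑ k ∈ s, vl (c k • MX (Nn k) (ζ k)) z‖ ≤ ∑ k ∈ s, ‖vl (c k • MX (Nn k) (ζ k)) z‖ :=
          norm_sum_le _ _
      _ ≤ ∑ k ∈ s, ‖(inner ℂ (ζ k) z : ℂ)‖ ^ Nn k := by
          apply Finset.sum_le_sum
          intro k hk
          rw [vl_smul, hMX _ _ _ hz, norm_mul, norm_pow]
          have h5 := hc k hk
          have h6 : 0 ≤ ‖(inner ℂ (ζ k) z : ℂ)‖ ^ Nn k := by positivity
          nlinarith
      _ ≤ C3 := hpk s z hz
      _ ≤ |C3| := h4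
  · intro k
    refine (ContinuousLinearMap.opNorm_comp_le _ _).trans ?_
    have h1 := hev1 (ζ k)
    have h2 := hP1 (Nn k)
    have h4 := abs_nonneg C3
    calc ‖ev (ζ k)‖ * ‖P (Nn k)‖ ≤ 1 * 1 := mul_le_mul h1 h2 (norm_nonneg _) zero_le_one
      _ ≤ C := by rw [hCdef]; linarith
  · intro x
    have h1 := (P_tendsto hP hP1 x).comp hNn.tendsto_atTop
    have h2 := h1.norm
    rw [norm_zero] at h2
    apply squeeze_zero_norm _ h2
    intro k
    calc ‖((ev (ζ k)).comp (P (Nn k))) x‖ = ‖ev (ζ k) (P (Nn k) x)‖ := rfl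
      _ ≤ 1 * ‖P (Nn k) x‖ := (ev (ζ k)).le_of_opNorm_le (hev1 _) _
      _ = ‖P (Nn k) x‖ := one_mul _
  · intro k l
    rw [ContinuousLinearMap.comp_apply, hev, P_MX hP hMX]
    by_cases h : k = l
    · subst h
      rw [if_pos rfl, if_pos rfl, hMX _ _ _ (hζ k).le, inner_self_eq_norm_sq_to_K, hζ]
      simp
    · rw [if_neg h, if_neg (fun h1 => h (hNn.injective h1)), vl_zero]

/-- the ball algebra has a Schauder basis (concrete form) -/
theorem basis_main (n : ℕ) (hn : 2 ≤ n) :
      ∃ e : ℕ → (EuclideanSpace ℂ (Fin n) → ℂ),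
        (∀ i, ContinuousOn (e i) (Metric.closedBall (0 : EuclideanSpace ℂ (Fin n)) 1) ∧
              DifferentiableOn ℂ (e i) (Metric.ball (0 : EuclideanSpace ℂ (Fin n)) 1)) ∧
        ∀ f : EuclideanSpace ℂ (Fin n) → ℂ,
          ContinuousOn f (Metric.closedBall (0 : EuclideanSpace ℂ (Fin n)) 1) →
          DifferentiableOn ℂ f (Metric.ball (0 : EuclideanSpace ℂ (Fin n)) 1) →
          ∃! a : ℕ → ℂ,
            TendstoUniformlyOn
              (fun (N : ℕ) (z : EuclideanSpace ℂ (Fin n)) => ∑ i ∈ Finset.range N, a i * e i z)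
              f Filter.atTop (Metric.closedBall (0 : EuclideanSpace ℂ (Fin n)) 1) := by
  obtain ⟨e, e', hbi, hlim⟩ := basis_X n hn
  refine ⟨fun i => vl (e i), fun i => ⟨vl_cont _, vl_diff _⟩, ?_⟩
  intro f hfc hfd
  obtain ⟨F, hF⟩ := exists_X f hfc hfd
  -- norm convergence is uniform convergence
  have key : ∀ a : ℕ → ℂ, TendstoUniformlyOn
      (fun (N : ℕ) (z : E n) => ∑ i ∈ Finset.range N, a i * vl (e i) z)
        f Filter.atTop (Metric.closedBall (0 : E n) 1) ↔
      Tendsto (fun N => ∑ k ∈ Finset.range N, a k • e k) atTop (𝓝 F) := by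
    intro a
    have h1 : ∀ N z, vl (∑ k ∈ Finset.range N, a k • e k) z =
        ∑ i ∈ Finset.range N, a i * vl (e i) z := by
      intro N z
      rw [vl_sum]
      exact Finset.sum_congr rfl fun i _ => vl_smul _ _ _
    rw [Metric.tendstoUniformlyOn_iff, Metric.tendsto_nhds]
    constructor
    · intro h ε hε
      filter_upwards [h (ε / 2) (by positivity)] with N hN
      rw [dist_eq_norm]
      refine lt_of_le_of_lt (norm_le_X _ (B := ε / 2) (by positivity) fun z hz => ?_) (by linarith)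
      rw [vl_sub, h1, hF z hz]
      have h2 := hN z (mem_closedBall_zero_iff.2 hz)
      rw [dist_comm, dist_eq_norm] at h2
      exact h2.le
    · intro h ε hε
      filter_upwards [h ε hε] with N hN z hz
      rw [mem_closedBall_zero_iff] at hz
      rw [dist_comm, dist_eq_norm, ← h1, ← hF z hz, ← vl_sub]
      rw [dist_eq_norm] at hN
      exact lt_of_le_of_lt (vl_le _ _) hN
  refine ⟨fun i => e' i F, (key _).2 (hlim F), ?_⟩
  intro a ha
  have h1 := (key a).1 ha
  funext k
  have h2 := ((e' k).continuous.tendsto _).comp h1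
  have h3 : Tendsto (fun N => e' k (∑ l ∈ Finset.range N, a l • e l)) atTop (𝓝 (a k)) := by
    apply tendsto_const_nhds.congr'
    filter_upwards [eventually_gt_atTop k] with N hN
    rw [map_sum]
    simp only [map_smul, hbi, smul_eq_mul, mul_ite, mul_one, mul_zero]
    rw [Finset.sum_ite_eq, if_pos (Finset.mem_range.2 hN)]
  exact tendsto_nhds_unique h3 h2

end Pool.Agent.H795R2.BA
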