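import Mathlib
import Pool.Agent.H795R2.BA.Defs

set_option autoImplicit false

open MeasureTheory Complex Filter Topology

namespace Pool.Agent.H795R2.BA

open Pool.Agent.HpBall Pool.Agent.HpBall2

/-- Task A -/
theorem ru_bound : ∃ C : ℝ, 0 < C ∧ ∀ (J : ℕ) (h : ℂ → ℂ) (B : ℝ),
    DifferentiableOn ℂ h (Metric.ball 0 1) → (∀ z, ‖z‖ < 1 → ‖h z‖ ≤ B) →
    ‖∑ k ∈ Finset.range (2 ^ J), (ru J k : ℂ) * tc h k‖ ≤ C * B := by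
  sorry

/-- Task C -/
theorem ker_L1 (n : ℕ) (hn : 1 ≤ n) : ∃ C : ℝ, 0 < C ∧ ∀ (j : ℕ) (z : E n), ‖z‖ ≤ 1 →
    ∫ ζ, ‖Ker n j ζ z‖ ∂(sig n) ≤ C := by
  sorry

/-- Task D -/
theorem quadrature (n : ℕ) (hn : 1 ≤ n) (D : ℕ) (G : E n → E n → ℂ)
    (hG : Continuous (fun q : E n × E n => G q.1 q.2)) (C : ℝ)
    (hC : ∀ z : E n, ‖z‖ ≤ 1 → ∫ ζ, ‖G ζ z‖ ∂(sig n) ≤ C) :
    ∃ (m : ℕ) (ξ : ℕ → E n) (w : ℕ → ℝ), (∀ i, ‖ξ i‖ = 1) ∧ (∀ i, 0 ≤ w i) ∧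
      (∀ k l : ℕ, k ≤ D → l ≤ D → ∀ η x : E n,
        ∑ i ∈ Finset.range m, (w i : ℂ) * ((inner ℂ η (ξ i) : ℂ) ^ k * (inner ℂ (ξ i) x : ℂ) ^ l) =
          ∫ ζ, (inner ℂ η ζ : ℂ) ^ k * (inner ℂ ζ x : ℂ) ^ l ∂(sig n)) ∧
      (∀ z : E n, ‖z‖ ≤ 1 → ∑ i ∈ Finset.range m, w i * ‖G (ξ i) z‖ ≤ C + 1) := by
  sorry

/-- Task E -/
theorem peaks (n : ℕ) (hn : 2 ≤ n) : ∃ (ζ : ℕ → E n) (N : ℕ → ℕ) (C : ℝ), (∀ k, ‖ζ k‖ = 1) ∧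
    StrictMono N ∧ (∀ k, 1 ≤ N k) ∧ ∀ (s : Finset ℕ) (z : E n), ‖z‖ ≤ 1 →
      ∑ k ∈ s, ‖(inner ℂ (ζ k) z : ℂ)‖ ^ N k ≤ C := by
  sorry

/-- Task F -/
theorem density (n : ℕ) (f : E n → ℂ) (hf : ContinuousOn f (Metric.closedBall 0 1))
    (hd : DifferentiableOn ℂ f (Metric.ball 0 1)) (ε : ℝ) (hε : 0 < ε) :
    ∃ (K : ℕ) (t : ℕ → ℝ), ∀ z : E n, ‖z‖ ≤ 1 →
      ‖f z - ∑ k ∈ Finset.range K, (t k : ℂ) * hc f k z‖ ≤ ε := by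
  sorry

/-- Task T: the abstract theorem -/
theorem abstract_basis {X : Type} [NormedAddCommGroup X] [NormedSpace ℂ X] [CompleteSpace X]
    (M : ℕ → ℕ) (hM0 : M 0 = 0) (hM : StrictMono M) (L : ℕ) (C : ℝ)
    (a : ℕ → (X →L[ℂ] ℂ)) (b : ℕ → X) (ha : ∀ k, ‖a k‖ ≤ C)
    (hb : ∀ (j : ℕ) (c : ℕ → ℂ) (s : Finset ℕ), s ⊆ Finset.Ico (M j) (M (j + 1)) →
      (∀ k ∈ s, ‖c k‖ ≤ 1) → ‖∑ k ∈ s, c k • b k‖ ≤ C)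
    (hR : ∀ x, Tendsto (fun J => ∑ k ∈ Finset.range (M J), a k x • b k) atTop (𝓝 x))
    (hab : ∀ j k l, k < M (j + 1) → M (j + L) ≤ l → a k (b l) = 0 ∧ a l (b k) = 0)
    (g : ℕ → X) (v : ℕ → (X →L[ℂ] ℂ))
    (hg : ∀ (c : ℕ → ℂ) (s : Finset ℕ), (∀ k ∈ s, ‖c k‖ ≤ 1) → ‖∑ k ∈ s, c k • g k‖ ≤ C)
    (hv : ∀ k, ‖v k‖ ≤ C) (hv0 : ∀ x, Tendsto (fun k => v k x) atTop (𝓝 0))
    (hvg : ∀ k l, v k (g l) = if k = l then 1 else 0) :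
    ∃ (e : ℕ → X) (e' : ℕ → (X →L[ℂ] ℂ)), (∀ k l, e' k (e l) = if k = l then 1 else 0) ∧
      ∀ x, Tendsto (fun N => ∑ k ∈ Finset.range N, e' k x • e k) atTop (𝓝 x) := by
  sorry

end Pool.Agent.H795R2.BA
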